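import Mathlib

/-!
Sofic approximations, algebraic actions, sofic mean dimension and the von Neumann-Lück rank.
-/

set_option autoImplicit false

open Filter Topology TensorProduct
open scoped ENNReal

noncomputable section

namespace Pool.Agent.V11111.MD

/-- A sofic approximation of `Γ`: maps `σ i : Γ → Sym(d i)` with `d i → ∞` which are asymptotically
multiplicative and asymptotically free. -/
structure Sofic (Γ : Type) [Group Γ] where
  d : ℕ → ℕ
  σ : (i : ℕ) → Γ → Equiv.Perm (Fin (d i))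
  tendsto : Tendsto d atTop atTop
  mul : ∀ s t : Γ, Tendsto
    (fun i => ({a | σ i (s * t) a = σ i s (σ i t a)}.ncard : ℝ) / d i) atTop (𝓝 1)
  free : ∀ s t : Γ, s ≠ t → Tendsto
    (fun i => ({a | σ i s a ≠ σ i t a}.ncard : ℝ) / d i) atTop (𝓝 1)

section Dyn
variable {X : Type} [TopologicalSpace X]

/-- A metric on `X` which is continuous on `X × X`. If `X` is compact it defines the topology. -/
structure CMetric (X : Type) [TopologicalSpace X] where
  ρ : X → X → ℝ
  self : ∀ x, ρ x x = 0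
  eq_of_zero : ∀ x y, ρ x y = 0 → x = y
  symm : ∀ x y, ρ x y = ρ y x
  triangle : ∀ x y z, ρ x z ≤ ρ x y + ρ y z
  cont : Continuous fun p : X × X => ρ p.1 p.2

/-- `ρ₂(φ, ψ) = (1/d ∑ ρ(φ(a), ψ(a))²)^(1/2)`. -/
def CMetric.two (ρ : CMetric X) {d : ℕ} (φ ψ : Fin d → X) : ℝ :=
  Real.sqrt ((∑ a, ρ.ρ (φ a) (ψ a) ^ 2) / d)

/-- `Map(ρ, F, δ, σ)`: all maps `φ` from `{1, ..., d}` to `X` with
`ρ₂(φ ∘ σ(s), s φ) ≤ δ` for all `s ∈ F`. -/
def CMetric.Map {Γ : Type} (ρ : CMetric X) (act : Γ → X → X) (F : Finset Γ) (δ : ℝ)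
    {d : ℕ} (σ : Γ → Equiv.Perm (Fin d)) : Set (Fin d → X) :=
  {φ | ∀ s ∈ F, ρ.two (fun a => φ (σ s a)) (fun a => act s (φ a)) ≤ δ}

/-- `Z ⊆ X^d` has a finite open cover of order at most `k` (every point is in at most `k + 1`
members) which refines the cover of `X^d` by products of members of `U`. -/
def HasCover (U : Set (Set X)) {d : ℕ} (Z : Set (Fin d → X)) (k : ℕ) : Prop :=
  ∃ V : Set (Set (Fin d → X)), V.Finite ∧
    (∀ v ∈ V, IsOpen v ∧ ∃ u : Fin d → Set X, (∀ a, u a ∈ U) ∧ v ∩ Z ⊆ Set.pi Set.univ u) ∧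
    Z ⊆ ⋃₀ V ∧ ∀ z ∈ Z, {v | v ∈ V ∧ z ∈ v}.ncard ≤ k + 1

open Classical in
/-- `D(U^d restricted to Z)`, the least order of a finite open cover of `Z` which refines the cover
`U^d`; it is `-∞` for the empty set. -/
def coverDim (U : Set (Set X)) {d : ℕ} (Z : Set (Fin d → X)) : EReal :=
  if Z = ∅ then ⊥ else ((sInf {k : ℕ | HasCover U Z k} : ℕ) : ℝ)

/-- `U` is a finite open cover of `X`. -/
structure IsFinOpenCover (U : Set (Set X)) : Prop where
  finite : U.Finite
  isOpen : ∀ u ∈ U, IsOpen u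
  cover : ⋃₀ U = Set.univ

/-- The sofic mean dimension `sup_U inf_F inf_δ limsup_i D(U, ρ, F, δ, σ_i) / d_i`. -/
def sMdim {Γ : Type} [Group Γ] (S : Sofic Γ) (act : Γ → X → X) (ρ : CMetric X) : EReal :=
  ⨆ U : {U : Set (Set X) // IsFinOpenCover U}, ⨅ F : Finset Γ, ⨅ δ : {δ : ℝ // 0 < δ},
    limsup (fun i => coverDim U.1 (ρ.Map act F δ.1 (S.σ i)) / ((S.d i : ℝ) : EReal)) atTop

end Dyn

section Alg
variable {Γ : Type} [Group Γ]

/-- The element `g` of the integral group ring. -/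
def gr (g : Γ) : MonoidAlgebra ℤ Γ := MonoidAlgebra.of ℤ Γ g

/-- The Pontryagin dual `Hom(A, ℝ/ℤ)` of a discrete abelian group. -/
@[ext] structure Dual (A : Type) [AddCommGroup A] where
  toFun : A → AddCircle (1 : ℝ)
  add : ∀ a b, toFun (a + b) = toFun a + toFun b

/-- The topology of pointwise convergence. -/
instance (A : Type) [AddCommGroup A] : TopologicalSpace (Dual A) :=
  TopologicalSpace.induced Dual.toFun inferInstance

/-- The algebraic action `(g χ)(a) = χ(g⁻¹ a)`. -/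
def dact {A : Type} [AddCommGroup A] [Module (MonoidAlgebra ℤ Γ) A] (g : Γ) (χ : Dual A) :
    Dual A where
  toFun a := χ.toFun (gr g⁻¹ • a)
  add a b := by rw [smul_add, χ.add]

/-- `ℓ²(Γ)` -/
def Ell (Γ : Type) : Type := lp (fun _ : Γ => ℂ) 2

instance instNACG (Γ : Type) : NormedAddCommGroup (Ell Γ) :=
  (inferInstance : NormedAddCommGroup (lp (fun _ : Γ => ℂ) 2))

instance instIPS (Γ : Type) : InnerProductSpace ℂ (Ell Γ) :=
  (inferInstance : InnerProductSpace ℂ (lp (fun _ : Γ => ℂ) 2))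

/-- The value of `f ∈ ℓ²(Γ)` at `x`. -/
def Ell.val {Γ : Type} (f : Ell Γ) (x : Γ) : ℂ := f.1 x

theorem memlp_equiv {Γ : Type} (e : Γ ≃ Γ) (f : Ell Γ) :
    Memℓp (fun x => f.val (e x)) 2 := by
  have h : Summable fun y => ‖f.val y‖ ^ (2 : ℝ≥0∞).toReal :=
    (memℓp_gen_iff (by norm_num)).1 f.2
  exact (memℓp_gen_iff (by norm_num)).2 ((Equiv.summable_iff e).2 h)

/-- The translate `x ↦ f(e x)` of `f` by a permutation `e` of the group. -/
def comp (e : Γ ≃ Γ) (f : Ell Γ) : Ell Γ := ⟨fun x => f.val (e x), memlp_equiv e f⟩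

/-- The ring of bounded operators on `ℓ²(Γ)`. -/
def BO (Γ : Type) : Type := Ell Γ →L[ℂ] Ell Γ

instance instBO (Γ : Type) : Ring (BO Γ) := (inferInstance : Ring (Ell Γ →L[ℂ] Ell Γ))

/-- The value of the operator `x` at the vector `f`. -/
def BO.ap {Γ : Type} (x : BO Γ) (f : Ell Γ) : Ell Γ := ContinuousLinearMap.toLinearMap x f

/-- The group von Neumann algebra `L(Γ)`: the bounded operators on `ℓ²(Γ)` which commute with all
right translations `f ↦ (x ↦ f(x k))`. -/
def LGs (Γ : Type) [Group Γ] : Subring (BO Γ) where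
  carrier := {x | ∀ (k : Γ) (f : Ell Γ), x.ap (comp (Equiv.mulRight k) f) =
    comp (Equiv.mulRight k) (x.ap f)}
  mul_mem' {x y} hx hy k f := by
    show x.ap (y.ap _) = comp _ (x.ap (y.ap f))
    rw [hy, hx]
  one_mem' k f := rfl
  add_mem' {x y} hx hy k f := by
    show x.ap _ + y.ap _ = _
    rw [hx, hy]; rfl
  zero_mem' k f := by
    show (0 : Ell Γ) = _
    rfl
  neg_mem' {x} hx k f := by
    show - x.ap _ = _
    rw [hx]; rfl

/-- The group von Neumann algebra `L(Γ)` as a ring. -/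
def LG (Γ : Type) [Group Γ] : Type := LGs Γ

instance instR (Γ : Type) [Group Γ] : Ring (LG Γ) := (inferInstance : Ring (LGs Γ))

/-- The operator given by an element of `L(Γ)`. -/
def LG.op {Γ : Type} [Group Γ] (x : LG Γ) : BO Γ := x.1

/-- The left translation operator `(λ_g f)(x) = f(g⁻¹ x)`. -/
def lamOp (g : Γ) : BO Γ :=
  LinearMap.mkContinuous
    { toFun := comp (Equiv.mulLeft g⁻¹)
      map_add' := fun _ _ => rfl
      map_smul' := fun _ _ => rfl } 1 (by
        intro f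
        rw [one_mul]
        refine le_of_eq ?_
        have h1 : ∀ f : Ell Γ, ‖f‖ = (∑' x, ‖f.val x‖ ^ (2 : ℝ≥0∞).toReal) ^
            (1 / (2 : ℝ≥0∞).toReal) := fun f => lp.norm_eq_tsum_rpow (by norm_num) _
        rw [h1, h1]
        congr 1
        exact (Equiv.mulLeft g⁻¹).tsum_eq (fun x => ‖f.val x‖ ^ (2 : ℝ≥0∞).toReal))

theorem lamOp_mem (g : Γ) : lamOp g ∈ LGs Γ := by
  intro k f
  refine lp.ext (funext fun x => ?_)
  show f.val (g⁻¹ * x * k) = f.val (g⁻¹ * (x * k))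
  rw [mul_assoc]

/-- The left translation operators belong to `L(Γ)`. -/
def lam (g : Γ) : LG Γ := ⟨lamOp g, lamOp_mem g⟩

/-- The basis vector `δ_g`. -/
def dirac (g : Γ) : Ell Γ := by classical exact lp.single 2 g (1 : ℂ)

/-- The von Neumann trace `⟨x δ₁, δ₁⟩` of `x ∈ L(Γ)`. -/
def vtr (x : LG Γ) : ℂ := (x.op.ap (dirac 1)).val 1

variable {A : Type} [AddCommGroup A] [Module (MonoidAlgebra ℤ Γ) A]

/-- The relations `[a + b] = [a] + [b]` and `[g a] = λ_g [a]` in the free left `L(Γ)`-module on the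
symbols `[a]`, `a ∈ A`. -/
def relSub (Γ A : Type) [Group Γ] [AddCommGroup A] [Module (MonoidAlgebra ℤ Γ) A] :
    Submodule (LG Γ) (A →₀ LG Γ) :=
  Submodule.span (LG Γ)
    ({t | ∃ a b : A, t = Finsupp.single (a + b) 1 - Finsupp.single a 1 - Finsupp.single b 1} ∪
      {t | ∃ (g : Γ) (a : A), t = Finsupp.single (gr g • a) 1 - Finsupp.single a (lam g)})

/-- The induced module `L(Γ) ⊗_{ℤΓ} A`: the left `L(Γ)`-module generated by the symbols
`[a] = 1 ⊗ a`, `a ∈ A`, with the relations `[a + b] = [a] + [b]` and `[g a] = λ_g [a]`. -/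
abbrev Ind (Γ A : Type) [Group Γ] [AddCommGroup A] [Module (MonoidAlgebra ℤ Γ) A] : Type :=
  (A →₀ LG Γ) ⧸ relSub Γ A

/-- The finitely generated projective module `L(Γ)^n e` (row vectors times the idempotent matrix
`e`) embeds into the left `L(Γ)`-module `M`. -/
def Embeds {n : ℕ} (e : Matrix (Fin n) (Fin n) (LG Γ)) (M : Type) [AddCommGroup M]
    [Module (LG Γ) M] : Prop :=
  ∃ f : (Fin n → LG Γ) →ₗ[LG Γ] M, ∀ v, f v = 0 ↔ Matrix.vecMul v e = 0

/-- The von Neumann trace of a square matrix over `L(Γ)`. -/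
def mtr {n : ℕ} (e : Matrix (Fin n) (Fin n) (LG Γ)) : ℝ := (∑ i, vtr (e i i)).re

/-- Lück's dimension of a left `L(Γ)`-module: the supremum of the von Neumann dimensions of its
finitely generated projective submodules `P`, where `dim P` is the trace of an idempotent matrix `e`
with `P ≅ L(Γ)^n e`. -/
def ldim (Γ : Type) [Group Γ] (M : Type) [AddCommGroup M] [Module (LG Γ) M] : ℝ≥0∞ :=
  sSup {r | ∃ (n : ℕ) (e : Matrix (Fin n) (Fin n) (LG Γ)),
    e * e = e ∧ Embeds e M ∧ r = ENNReal.ofReal (mtr e)}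

/-- The von Neumann-Lück rank of the left `ℤΓ`-module `A`. -/
def vr (Γ A : Type) [Group Γ] [AddCommGroup A] [Module (MonoidAlgebra ℤ Γ) A] : ℝ≥0∞ :=
  ldim Γ (Ind Γ A)

end Alg

end Pool.Agent.V11111.MD
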