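import Mathlib

/-! Spectral counting for `Mᵀ M` with `M` an integer matrix. -/

set_option autoImplicit false

open Matrix Finset

noncomputable section

namespace Pool.Agent.V11111.MD

variable {a b : Type} [Fintype a] [Fintype b] [DecidableEq a] [DecidableEq b]

/-- Spectral data of `Mᵀ M`. -/
structure SpecData (M : Matrix a b ℝ) where
  U : Matrix b b ℝ
  ev : b → ℝ
  h1 : U * Uᵀ = 1
  h2 : Uᵀ * U = 1
  h3 : Mᵀ * M = U * diagonal ev * Uᵀ
  h4 : (Mᵀ * M).charpoly = ∏ i, (Polynomial.X - Polynomial.C (ev i))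
  h5 : (Mᵀ * M).rank = Fintype.card {i // ev i ≠ 0}

theorem exists_specData (M : Matrix a b ℝ) : Nonempty (SpecData M) := by
  have hA : (Mᵀ * M).IsHermitian := by
    rw [Matrix.IsHermitian, Matrix.conjTranspose_eq_transpose_of_trivial, Matrix.transpose_mul,
      Matrix.transpose_transpose]
  have hst : ∀ A : Matrix b b ℝ, star A = Aᵀ := by
    intro A; ext i j; simp [star_apply]
  refine ⟨⟨(hA.eigenvectorUnitary : Matrix b b ℝ), hA.eigenvalues, ?_, ?_, ?_, ?_, ?_⟩⟩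
  · rw [← hst]; exact Unitary.coe_mul_star_self _
  · rw [← hst]; exact Unitary.coe_star_mul_self _
  · conv_lhs => rw [hA.spectral_theorem, Unitary.conjStarAlgAut_apply]
    rw [← hst]
    rfl
  · rw [hA.charpoly_eq]; rfl
  · exact hA.rank_eq_card_non_zero_eigs

variable {M : Matrix a b ℝ} (S : SpecData M)

namespace SpecData

theorem norm_U (v : b → ℝ) : ∑ i, (S.Uᵀ *ᵥ v) i ^ 2 = ∑ i, v i ^ 2 := by
  have h : (S.Uᵀ *ᵥ v) ⬝ᵥ (S.Uᵀ *ᵥ v) = v ⬝ᵥ v := by
    rw [Matrix.dotProduct_mulVec, Matrix.vecMul_transpose, Matrix.mulVec_mulVec, S.h1,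
      Matrix.one_mulVec]
  simp only [dotProduct] at h
  simpa [sq] using h

theorem norm_M (v : b → ℝ) : ∑ i, (M *ᵥ v) i ^ 2 = ∑ i, S.ev i * (S.Uᵀ *ᵥ v) i ^ 2 := by
  have h : (M *ᵥ v) ⬝ᵥ (M *ᵥ v) = (S.Uᵀ *ᵥ v) ⬝ᵥ (diagonal S.ev *ᵥ (S.Uᵀ *ᵥ v)) := by
    have e1 : (M *ᵥ v) ⬝ᵥ (M *ᵥ v) = v ⬝ᵥ ((Mᵀ * M) *ᵥ v) := by
      rw [← Matrix.mulVec_mulVec, Matrix.dotProduct_mulVec v Mᵀ, Matrix.vecMul_transpose]
    rw [e1, S.h3, ← Matrix.mulVec_mulVec, ← Matrix.mulVec_mulVec, Matrix.dotProduct_mulVec v S.U,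
      Matrix.mulVec_transpose]
  simp only [dotProduct, mulVec_diagonal] at h
  have e2 : ∑ i, (M *ᵥ v) i ^ 2 = ∑ i, (M *ᵥ v) i * (M *ᵥ v) i := by simp [sq]
  rw [e2, h]
  exact Finset.sum_congr rfl fun i _ => by ring

theorem UU_single (i : b) : S.Uᵀ *ᵥ (S.U *ᵥ Pi.single i 1) = Pi.single i 1 := by
  rw [Matrix.mulVec_mulVec, S.h2, Matrix.one_mulVec]

theorem ev_nonneg (i : b) : 0 ≤ S.ev i := by
  have h := S.norm_M (S.U *ᵥ Pi.single i 1)
  rw [S.UU_single] at h
  have e : ∑ j, S.ev j * (Pi.single i (1 : ℝ) : b → ℝ) j ^ 2 = S.ev i := by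
    rw [Finset.sum_eq_single i]
    · simp
    · intro j _ hj; simp [hj]
    · simp
  rw [e] at h
  rw [← h]
  positivity

theorem ev_le (C : ℝ) (hC : ∀ v : b → ℝ, ∑ i, (M *ᵥ v) i ^ 2 ≤ C * ∑ i, v i ^ 2) (i : b) :
    S.ev i ≤ C := by
  have h := S.norm_M (S.U *ᵥ Pi.single i 1)
  have h' := hC (S.U *ᵥ Pi.single i 1)
  have h'' := S.norm_U (S.U *ᵥ Pi.single i 1)
  rw [S.UU_single] at h h''
  have e : ∑ j, S.ev j * (Pi.single i (1 : ℝ) : b → ℝ) j ^ 2 = S.ev i := by
    rw [Finset.sum_eq_single i]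
    · simp
    · intro j _ hj; simp [hj]
    · simp
  have e' : ∑ j, (Pi.single i (1 : ℝ) : b → ℝ) j ^ 2 = 1 := by
    rw [Finset.sum_eq_single i]
    · simp
    · intro j _ hj; simp [hj]
    · simp
  rw [e] at h
  rw [h, ← h'', e', mul_one] at h'
  exact h'

theorem pow_eq (c : ℝ) (n : ℕ) : ((1 : Matrix b b ℝ) - c • (Mᵀ * M)) ^ n =
    S.U * diagonal (fun i => (1 - c * S.ev i) ^ n) * S.Uᵀ := by
  have hQ : ((1 : Matrix b b ℝ) - c • (Mᵀ * M)) = S.U * diagonal (fun i => 1 - c * S.ev i) * S.Uᵀ := by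
    have e1 : diagonal (fun i => 1 - c * S.ev i) = (1 : Matrix b b ℝ) - c • diagonal S.ev := by
      rw [← diagonal_one, ← diagonal_smul, diagonal_sub]
      rfl
    rw [e1, mul_sub, sub_mul, mul_one, S.h1, S.h3, mul_smul_comm, smul_mul_assoc]
  rw [hQ]
  induction n with
  | zero => simp [S.h1]
  | succ n ih =>
    rw [pow_succ, ih]
    have e2 : S.U * diagonal (fun i => (1 - c * S.ev i) ^ n) * S.Uᵀ *
        (S.U * diagonal (fun i => 1 - c * S.ev i) * S.Uᵀ) =
        S.U * (diagonal (fun i => (1 - c * S.ev i) ^ n) * ((S.Uᵀ * S.U) *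
          diagonal (fun i => 1 - c * S.ev i))) * S.Uᵀ := by
      simp only [mul_assoc]
    rw [e2, S.h2, one_mul, diagonal_mul_diagonal]
    simp only [pow_succ]

theorem sum_pow (c : ℝ) (n : ℕ) :
    ∑ x, ∑ y, ((((1 : Matrix b b ℝ) - c • (Mᵀ * M)) ^ n) *ᵥ Pi.single x 1) y ^ 2 =
      ∑ i, (1 - c * S.ev i) ^ (2 * n) := by
  set Q := ((1 : Matrix b b ℝ) - c • (Mᵀ * M)) ^ n with hQ
  have e1 : ∑ x, ∑ y, (Q *ᵥ Pi.single x 1) y ^ 2 = (Qᵀ * Q).trace := by
    simp only [Matrix.trace, Matrix.diag, Matrix.mul_apply, Matrix.transpose_apply,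
      Matrix.mulVec_single_one, Matrix.col_apply]
    exact Finset.sum_congr rfl fun i _ => Finset.sum_congr rfl fun j _ => by ring
  rw [e1, hQ, S.pow_eq]
  rw [Matrix.transpose_mul, Matrix.transpose_mul, Matrix.transpose_transpose, diagonal_transpose]
  have e2 : S.U * (diagonal (fun i => (1 - c * S.ev i) ^ n) * S.Uᵀ) *
      (S.U * diagonal (fun i => (1 - c * S.ev i) ^ n) * S.Uᵀ) =
      S.U * (diagonal (fun i => (1 - c * S.ev i) ^ n) * ((S.Uᵀ * S.U) *
        diagonal (fun i => (1 - c * S.ev i) ^ n)) * S.Uᵀ) := by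
    simp only [mul_assoc]
  rw [e2, S.h2, one_mul, diagonal_mul_diagonal, Matrix.trace_mul_comm, mul_assoc, S.h2, mul_one,
    Matrix.trace_diagonal]
  exact Finset.sum_congr rfl fun i _ => by rw [two_mul, pow_add]

theorem card_zero : Fintype.card {i // S.ev i = 0} = Module.finrank ℝ (LinearMap.ker M.mulVecLin) := by
  have h1 := LinearMap.finrank_range_add_finrank_ker M.mulVecLin
  have h2 : Module.finrank ℝ (LinearMap.range M.mulVecLin) = Fintype.card {i // S.ev i ≠ 0} := by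
    rw [← S.h5, Matrix.rank_transpose_mul_self]
    rfl
  have h3 : Fintype.card {i // S.ev i = 0} + Fintype.card {i // S.ev i ≠ 0} = Fintype.card b := by
    have := Fintype.card_subtype_compl (fun i => S.ev i = 0)
    have h4 : Fintype.card {i // S.ev i = 0} ≤ Fintype.card b := Fintype.card_subtype_le _
    rw [this]
    omega
  rw [Module.finrank_pi] at h1
  omega

end SpecData

/-- The small nonzero eigenvalues are few. -/
theorem small_card (Z : Matrix a b ℤ) (S : SpecData (Z.map (Int.cast : ℤ → ℝ))) (C : ℝ)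
    (hC1 : 1 ≤ C)
    (hC : ∀ v : b → ℝ, ∑ i, ((Z.map (Int.cast : ℤ → ℝ)) *ᵥ v) i ^ 2 ≤ C * ∑ i, v i ^ 2)
    (κ : ℝ) (hκ : 0 < κ) (hκ1 : κ < 1) :
    (Fintype.card {i // 0 < S.ev i ∧ S.ev i ≤ κ} : ℝ) * Real.log (1 / κ) ≤
      Fintype.card b * Real.log C := by
  classical
  set T := (Z.map (Int.cast : ℤ → ℝ))ᵀ * (Z.map (Int.cast : ℤ → ℝ)) with hT
  have hTZ : T = (Zᵀ * Z).map (Int.castRingHom ℝ) := by
    rw [Matrix.map_mul]
    rfl
  have hch : T.charpoly = ((Zᵀ * Z).charpoly).map (Int.castRingHom ℝ) := by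
    rw [hTZ, Matrix.charpoly_map]
  -- the product of the nonzero eigenvalues is at least one
  have hprod : 1 ≤ ∏ i ∈ univ.filter (fun i => S.ev i ≠ 0), S.ev i := by
    have h4 := S.h4
    rw [← hT] at h4
    set k := (univ.filter (fun i => S.ev i = 0)).card with hk
    have e1 : T.charpoly = Polynomial.X ^ k *
        ∏ i ∈ univ.filter (fun i => S.ev i ≠ 0), (Polynomial.X - Polynomial.C (S.ev i)) := by
      rw [h4, ← Finset.prod_filter_mul_prod_filter_not univ (fun i => S.ev i = 0)]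
      congr 1
      rw [hk, Finset.prod_congr rfl (g := fun _ => Polynomial.X)]
      · simp
      · intro i hi
        rw [(Finset.mem_filter.1 hi).2]; simp
    have e2 : T.charpoly.coeff k = ∏ i ∈ univ.filter (fun i => S.ev i ≠ 0), (- S.ev i) := by
      rw [e1]
      have := Polynomial.coeff_X_pow_mul (∏ i ∈ univ.filter (fun i => S.ev i ≠ 0),
        (Polynomial.X - Polynomial.C (S.ev i))) k 0
      rw [zero_add] at this
      rw [this, Polynomial.coeff_zero_eq_eval_zero, Polynomial.eval_prod]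
      simp
    have e3 : T.charpoly.coeff k = (((Zᵀ * Z).charpoly.coeff k : ℤ) : ℝ) := by
      rw [hch, Polynomial.coeff_map]; rfl
    have e4 : |∏ i ∈ univ.filter (fun i => S.ev i ≠ 0), (- S.ev i)| =
        ∏ i ∈ univ.filter (fun i => S.ev i ≠ 0), S.ev i := by
      rw [Finset.abs_prod]
      refine Finset.prod_congr rfl fun i _ => ?_
      rw [abs_neg, abs_of_nonneg (S.ev_nonneg i)]
    have e5 : (∏ i ∈ univ.filter (fun i => S.ev i ≠ 0), S.ev i) ≠ 0 := by
      rw [Finset.prod_ne_zero_iff]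
      intro i hi
      exact (Finset.mem_filter.1 hi).2
    have e6 : ((Zᵀ * Z).charpoly.coeff k : ℤ) ≠ 0 := by
      intro h0
      rw [← e4, ← e2, e3, h0] at e5
      simp at e5
    have e7 : (1 : ℤ) ≤ |(Zᵀ * Z).charpoly.coeff k| := Int.one_le_abs e6
    rw [← e4, ← e2, e3, ← Int.cast_abs]
    exact_mod_cast e7
  have hlog : 0 ≤ ∑ i ∈ univ.filter (fun i => S.ev i ≠ 0), Real.log (S.ev i) := by
    rw [← Real.log_prod (fun i hi => (Finset.mem_filter.1 hi).2)]
    exact Real.log_nonneg hprod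
  have hs : ∑ i ∈ univ.filter (fun i => S.ev i ≠ 0), Real.log (S.ev i) ≤
      ∑ i : b, ((if 0 < S.ev i ∧ S.ev i ≤ κ then Real.log κ else 0) + Real.log C) := by
    rw [Finset.sum_filter]
    refine Finset.sum_le_sum fun i _ => ?_
    have hlC : 0 ≤ Real.log C := Real.log_nonneg hC1
    by_cases h0 : S.ev i ≠ 0
    · rw [if_pos h0]
      have hp : 0 < S.ev i := lt_of_le_of_ne (S.ev_nonneg i) (Ne.symm h0)
      by_cases h1 : S.ev i ≤ κ
      · rw [if_pos ⟨hp, h1⟩]
        have := Real.log_le_log hp h1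
        linarith
      · rw [if_neg (fun h => h1 h.2)]
        have := Real.log_le_log hp (S.ev_le C hC i)
        linarith
    · rw [if_neg h0, if_neg]
      · linarith
      · intro h
        push Not at h0
        linarith [h.1]
  rw [Finset.sum_add_distrib, ← Finset.sum_filter, Finset.sum_const, Finset.sum_const] at hs
  have hcard : Fintype.card {i // 0 < S.ev i ∧ S.ev i ≤ κ} =
      (univ.filter (fun i => 0 < S.ev i ∧ S.ev i ≤ κ)).card := by
    rw [Fintype.card_subtype]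
  rw [← hcard] at hs
  simp only [nsmul_eq_mul, Finset.card_univ] at hs
  rw [one_div, Real.log_inv]
  linarith

end Pool.Agent.V11111.MD
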