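import Mathlib
import Pool.Agent.H13.L.R843.V11111.MD.Defs
import Pool.Agent.H13.L.R843.V11111.MD.Local

/-! The matrices attached to the relations on the finite sets of a sofic approximation. -/

set_option autoImplicit false

open Matrix Finset Filter Topology
open scoped Pointwise

noncomputable section

namespace Pool.Agent.V11111.MD

section
variable {Γ : Type} [Group Γ] {m : ℕ} {κ : Type} [Fintype κ] [DecidableEq κ]
variable {X : Type} [Fintype X] [DecidableEq X]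

/-- the integer matrix of `v ↦ ∑ c(q,g,l) v(x g, l)` -/
def Zm (G : Finset Γ) (c : κ → Γ → Fin m → ℤ) (τ : Γ → Equiv.Perm X) :
    Matrix (X × κ) (X × Fin m) ℤ :=
  fun p q => ∑ g ∈ G, if τ g p.1 = q.1 then c p.2 g q.2 else 0

/-- the real matrix -/
def Rm (G : Finset Γ) (c : κ → Γ → Fin m → ℤ) (τ : Γ → Equiv.Perm X) :
    Matrix (X × κ) (X × Fin m) ℝ := (Zm G c τ).map (Int.cast : ℤ → ℝ)

/-- the bound for the norm -/
def Cb (G : Finset Γ) (c : κ → Γ → Fin m → ℤ) : ℝ :=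
  G.card * (∑ q : κ, ∑ g ∈ G, ∑ l : Fin m, (c q g l : ℝ) ^ 2) + 1

omit [Group Γ] [DecidableEq κ] in
theorem one_le_Cb (G : Finset Γ) (c : κ → Γ → Fin m → ℤ) : 1 ≤ Cb G c := by
  unfold Cb
  have : 0 ≤ (G.card : ℝ) * (∑ q : κ, ∑ g ∈ G, ∑ l : Fin m, (c q g l : ℝ) ^ 2) := by positivity
  linarith

variable (G : Finset Γ) (c : κ → Γ → Fin m → ℤ) (τ : Γ → Equiv.Perm X)

omit [Group Γ] [Fintype κ] [DecidableEq κ] in
theorem Rm_mulVec (v : X × Fin m → ℝ) (x : X) (q : κ) :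
    (Rm G c τ *ᵥ v) (x, q) = ∑ g ∈ G, ∑ l : Fin m, (c q g l : ℝ) * v (τ g x, l) := by
  simp only [Matrix.mulVec, dotProduct, Rm, Zm, Matrix.map_apply]
  rw [Fintype.sum_prod_type]
  simp only [Int.cast_sum, Finset.sum_mul]
  have e1 : ∀ x' : X, ∑ l : Fin m, ∑ g ∈ G,
      (((if τ g x = x' then c q g l else 0 : ℤ) : ℤ) : ℝ) * v (x', l) =
      ∑ g ∈ G, if τ g x = x' then ∑ l : Fin m, (c q g l : ℝ) * v (x', l) else 0 := by
    intro x'
    rw [Finset.sum_comm]
    refine Finset.sum_congr rfl fun g _ => ?_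
    by_cases h : τ g x = x'
    · simp [h]
    · simp [h]
  rw [Finset.sum_congr rfl fun x' _ => e1 x', Finset.sum_comm]
  refine Finset.sum_congr rfl fun g _ => ?_
  rw [Finset.sum_ite_eq]
  simp

omit [Group Γ] [DecidableEq κ] in
theorem Rm_bound (v : X × Fin m → ℝ) :
    ∑ p, (Rm G c τ *ᵥ v) p ^ 2 ≤ Cb G c * ∑ p, v p ^ 2 := by
  have hv0 : 0 ≤ ∑ p, v p ^ 2 := Finset.sum_nonneg fun _ _ => sq_nonneg _
  have h1 : ∀ (x : X) (q : κ), (Rm G c τ *ᵥ v) (x, q) ^ 2 ≤
      (∑ g ∈ G, ∑ l : Fin m, (c q g l : ℝ) ^ 2) * ∑ g ∈ G, ∑ l : Fin m, v (τ g x, l) ^ 2 := by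
    intro x q
    rw [Rm_mulVec]
    have := Finset.sum_mul_sq_le_sq_mul_sq (G ×ˢ (Finset.univ : Finset (Fin m)))
      (fun p => (c q p.1 p.2 : ℝ)) (fun p => v (τ p.1 x, p.2))
    simp only [Finset.sum_product] at this
    exact this
  have h2 : ∑ p, (Rm G c τ *ᵥ v) p ^ 2 ≤
      ∑ x : X, ∑ q : κ, (∑ g ∈ G, ∑ l : Fin m, (c q g l : ℝ) ^ 2) *
        ∑ g ∈ G, ∑ l : Fin m, v (τ g x, l) ^ 2 := by
    rw [Fintype.sum_prod_type]
    exact Finset.sum_le_sum fun x _ => Finset.sum_le_sum fun q _ => h1 x q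
  have h3 : ∑ x : X, ∑ q : κ, (∑ g ∈ G, ∑ l : Fin m, (c q g l : ℝ) ^ 2) *
        ∑ g ∈ G, ∑ l : Fin m, v (τ g x, l) ^ 2 =
      (∑ q : κ, ∑ g ∈ G, ∑ l : Fin m, (c q g l : ℝ) ^ 2) * (G.card * ∑ p, v p ^ 2) := by
    simp only [← Finset.sum_mul]
    rw [← Finset.mul_sum]
    congr 1
    rw [Finset.sum_comm]
    have : ∀ g ∈ G, ∑ x : X, ∑ l : Fin m, v (τ g x, l) ^ 2 = ∑ p, v p ^ 2 := by
      intro g _
      rw [Fintype.sum_prod_type]
      exact Equiv.sum_comp (τ g) (fun x => ∑ l : Fin m, v (x, l) ^ 2)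
    rw [Finset.sum_congr rfl this, Finset.sum_const, nsmul_eq_mul]
  refine h2.trans (h3.le.trans ?_)
  unfold Cb
  nlinarith

omit [Group Γ] in
theorem Rm_Nf (f : X × Fin m →₀ ℝ) : Rm G c τ *ᵥ (f : X × Fin m → ℝ) = (Nf G c τ f : X × κ → ℝ) := by
  induction f using Finsupp.induction_linear with
  | zero => simp
  | add f g hf hg =>
    rw [map_add, Finsupp.coe_add, Finsupp.coe_add, Matrix.mulVec_add, hf, hg]
  | single p t =>
    funext y
    obtain ⟨x, q⟩ := y
    rw [Rm_mulVec, Nf, Finsupp.linearCombination_single, Finsupp.smul_apply, Finsupp.finset_sum_apply,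
      smul_eq_mul, Finset.mul_sum]
    refine Finset.sum_congr rfl fun g _ => ?_
    rw [Finsupp.finset_sum_apply]
    have e1 : ∑ l : Fin m, (c q g l : ℝ) * (Finsupp.single p t : X × Fin m →₀ ℝ) (τ g x, l) =
        if τ g x = p.1 then c q g p.2 * t else 0 := by
      rw [Finset.sum_eq_single p.2]
      · by_cases h : τ g x = p.1
        · rw [if_pos h, h]; simp
        · rw [if_neg h, Finsupp.single_apply, if_neg]
          · simp
          · intro h'; exact h (by rw [h'])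
      · intro l _ hl
        rw [Finsupp.single_apply, if_neg]
        · simp
        · intro h'; exact hl (by rw [h'])
      · simp
    have e2 : ∑ q' : κ, (Finsupp.single ((τ g)⁻¹ p.1, q') (c q' g p.2 : ℝ) : X × κ →₀ ℝ) (x, q) =
        if τ g x = p.1 then (c q g p.2 : ℝ) else 0 := by
      rw [Finset.sum_eq_single q]
      · rw [Finsupp.single_apply]
        by_cases h : τ g x = p.1
        · rw [if_pos h, if_pos]
          rw [← h]; simp
        · rw [if_neg h, if_neg]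
          intro h'
          apply h
          have := (Prod.mk.inj h').1
          rw [← this]; simp
      · intro q' _ hq'
        rw [Finsupp.single_apply, if_neg]
        intro h'; exact hq' (Prod.mk.inj h').2
      · simp
    rw [e1, e2]
    by_cases h : τ g x = p.1
    · simp [h, mul_comm]
    · simp [h]

omit [Group Γ] [DecidableEq κ] in
theorem Rm_Nt [DecidableEq κ] (f : X × κ →₀ ℝ) :
    (Rm G c τ)ᵀ *ᵥ (f : X × κ → ℝ) = (Nt G c τ f : X × Fin m → ℝ) := by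
  induction f using Finsupp.induction_linear with
  | zero => simp
  | add f g hf hg =>
    rw [map_add, Finsupp.coe_add, Finsupp.coe_add, Matrix.mulVec_add, hf, hg]
  | single p t =>
    funext y
    obtain ⟨x, l⟩ := y
    have e0 : ((Rm G c τ)ᵀ *ᵥ ((Finsupp.single p t : X × κ →₀ ℝ) : X × κ → ℝ)) (x, l) =
        t * ∑ g ∈ G, if τ g p.1 = x then (c p.2 g l : ℝ) else 0 := by
      rw [Matrix.mulVec, dotProduct, Finset.sum_eq_single p]
      · rw [Matrix.transpose_apply, Finsupp.single_eq_same, mul_comm]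
        congr 1
        simp only [Rm, Zm, Matrix.map_apply, Int.cast_sum]
        refine Finset.sum_congr rfl fun g _ => ?_
        by_cases h : τ g p.1 = x <;> simp [h]
      · intro p' _ hp'
        rw [Finsupp.single_apply, if_neg (Ne.symm hp'), mul_zero]
      · simp
    rw [e0, Nt, Finsupp.linearCombination_single, Finsupp.smul_apply, Finsupp.finset_sum_apply,
      smul_eq_mul]
    congr 1
    refine Finset.sum_congr rfl fun g _ => ?_
    rw [Finsupp.finset_sum_apply, Finset.sum_eq_single l]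
    · rw [Finsupp.single_apply]
      by_cases h : τ g p.1 = x
      · rw [if_pos h, if_pos (by rw [h])]
      · rw [if_neg h, if_neg]
        intro h'; exact h (Prod.mk.inj h').1
    · intro l' _ hl'
      rw [Finsupp.single_apply, if_neg]
      intro h'; exact hl' (Prod.mk.inj h').2
    · simp

omit [Group Γ] in
theorem Rm_Qf (t : ℝ) (n : ℕ) (f : X × Fin m →₀ ℝ) :
    ((1 - t • ((Rm G c τ)ᵀ * Rm G c τ)) ^ n) *ᵥ (f : X × Fin m → ℝ) =
      ((Qf G c τ t ^ n) f : X × Fin m → ℝ) := by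
  induction n with
  | zero => simp
  | succ n ih =>
    rw [pow_succ', pow_succ', Module.End.mul_apply, ← Matrix.mulVec_mulVec, ih, Matrix.sub_mulVec,
      Matrix.one_mulVec, Matrix.smul_mulVec, ← Matrix.mulVec_mulVec, Rm_Nf, Rm_Nt]
    rfl

/-- `‖(1 - t N* N)^n δ_(x,l)‖²` as a sum over the support -/
theorem Rm_ssq (t : ℝ) (n : ℕ) (p : X × Fin m) :
    ∑ y, ((((1 - t • ((Rm G c τ)ᵀ * Rm G c τ)) ^ n) *ᵥ Pi.single p 1) y) ^ 2 =
      ssq ((Qf G c τ t ^ n) (Finsupp.single p 1)) := by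
  have e : (Pi.single p 1 : X × Fin m → ℝ) = ((Finsupp.single p 1 : X × Fin m →₀ ℝ) :
      X × Fin m → ℝ) := by
    rw [Finsupp.single_eq_pi_single]
  rw [e, Rm_Qf, ssq]
  symm
  apply Finset.sum_subset (Finset.subset_univ _)
  intro y _ hy
  rw [Finsupp.notMem_support_iff.1 hy]; simp

/-- the data of the spectral theorem -/
def Sd : SpecData (Rm G c τ) := (exists_specData _).some

/-- each term is at most one -/
theorem Rm_ssq_le (n : ℕ) (p : X × Fin m) :
    ∑ y, ((((1 - (Cb G c)⁻¹ • ((Rm G c τ)ᵀ * Rm G c τ)) ^ n) *ᵥ Pi.single p 1) y) ^ 2 ≤ 1 := by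
  set S := Sd G c τ
  have hC := one_le_Cb G c
  have hev : ∀ i, 0 ≤ 1 - (Cb G c)⁻¹ * S.ev i ∧ 1 - (Cb G c)⁻¹ * S.ev i ≤ 1 := by
    intro i
    have h1 := S.ev_le (Cb G c) (Rm_bound G c τ) i
    have h0 := S.ev_nonneg i
    constructor
    · rw [sub_nonneg, inv_mul_le_iff₀ (by linarith)]; linarith
    · have : 0 ≤ (Cb G c)⁻¹ * S.ev i := by positivity
      linarith
  rw [S.pow_eq]
  set w := (Pi.single p 1 : X × Fin m → ℝ) with hw
  have h1 : ∑ y, ((S.U * diagonal (fun i => (1 - (Cb G c)⁻¹ * S.ev i) ^ n) * S.Uᵀ) *ᵥ w) y ^ 2 =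
      ∑ i, ((1 - (Cb G c)⁻¹ * S.ev i) ^ n * (S.Uᵀ *ᵥ w) i) ^ 2 := by
    rw [← S.norm_U, Matrix.mulVec_mulVec, ← mul_assoc, ← mul_assoc, S.h2, one_mul,
      ← Matrix.mulVec_mulVec]
    simp only [mulVec_diagonal]
  rw [h1]
  calc ∑ i, ((1 - (Cb G c)⁻¹ * S.ev i) ^ n * (S.Uᵀ *ᵥ w) i) ^ 2 ≤ ∑ i, (S.Uᵀ *ᵥ w) i ^ 2 := by
        refine Finset.sum_le_sum fun i _ => ?_
        rw [mul_pow, ← pow_mul]
        have h2 : (1 - (Cb G c)⁻¹ * S.ev i) ^ (n * 2) ≤ 1 := pow_le_one₀ (hev i).1 (hev i).2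
        have h3 := sq_nonneg ((S.Uᵀ *ᵥ w) i)
        nlinarith
    _ = ∑ i, w i ^ 2 := S.norm_U w
    _ = 1 := by
        rw [hw, Finset.sum_eq_single p]
        · simp
        · intro q _ hq; simp [hq]
        · simp

end

end Pool.Agent.V11111.MD
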