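import Mathlib
import Pool.Agent.H13.L.R843.V11111.MD.SLim

/-! Counting small eigenvalues along the sofic approximation. -/

set_option autoImplicit false

open Matrix Finset Filter Topology
open scoped Pointwise

noncomputable section

namespace Pool.Agent.V11111.MD

variable {Γ : Type} [Group Γ] {m : ℕ} {κ : Type} [Fintype κ] [DecidableEq κ]

theorem trn_eq (S : Sofic Γ) (G : Finset Γ) (c : κ → Γ → Fin m → ℤ) (n i : ℕ) :
    trn S G c n i = (∑ p, (1 - (Cb G c)⁻¹ * (Sd G c (S.tau i)).ev p) ^ (2 * n)) / S.d i := by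
  unfold trn
  rw [(Sd G c (S.tau i)).sum_pow]

theorem ev01 (S : Sofic Γ) (G : Finset Γ) (c : κ → Γ → Fin m → ℤ) (i : ℕ)
    (p : Fin (S.d i) × Fin m) : 0 ≤ (Cb G c)⁻¹ * (Sd G c (S.tau i)).ev p ∧
      (Cb G c)⁻¹ * (Sd G c (S.tau i)).ev p ≤ 1 := by
  have hC := one_le_Cb G c
  have h1 := (Sd G c (S.tau i)).ev_le (Cb G c) (Rm_bound G c _) p
  have h0 := (Sd G c (S.tau i)).ev_nonneg p
  constructor
  · positivity
  · rw [inv_mul_le_iff₀ (by linarith)]; linarith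

theorem small_upper [DecidableEq Γ] (S : Sofic Γ) (G : Finset Γ) (c : κ → Γ → Fin m → ℤ) (n : ℕ)
    (b : ℝ) (hb : ∑ l, beta G c n l < b) :
    ∃ ε : ℝ, 0 < ε ∧ ∀ᶠ i in atTop,
      (Fintype.card {p // (Sd G c (S.tau i)).ev p ≤ ε} : ℝ) ≤ b * S.d i := by
  have hC := one_le_Cb G c
  have hb0 : 0 ≤ ∑ l, beta G c n l := Finset.sum_nonneg fun _ _ => ssq_nonneg _
  set b1 := (∑ l, beta G c n l + b) / 2 with hb1
  have hb1' : ∑ l, beta G c n l < b1 := by rw [hb1]; linarith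
  have hb1'' : b1 < b := by rw [hb1]; linarith
  have hlim : Tendsto (fun ε : ℝ => b * (1 - (Cb G c)⁻¹ * ε) ^ (2 * n)) (𝓝[>] 0) (𝓝 b) := by
    have : Tendsto (fun ε : ℝ => b * (1 - (Cb G c)⁻¹ * ε) ^ (2 * n)) (𝓝 0)
        (𝓝 (b * (1 - (Cb G c)⁻¹ * 0) ^ (2 * n))) := by
      apply Continuous.tendsto
      fun_prop
    rw [mul_zero, sub_zero, one_pow, mul_one] at this
    exact this.mono_left nhdsWithin_le_nhds
  have ha : ∀ᶠ ε : ℝ in 𝓝[>] 0, ε ∈ Set.Ioo (0 : ℝ) 1 :=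
    Ioo_mem_nhdsGT (show (0 : ℝ) < 1 by norm_num)
  obtain ⟨ε, h2, hε1⟩ := ((hlim.eventually (lt_mem_nhds hb1'')).and ha).exists
  have hε0 : 0 < ε := hε1.1
  refine ⟨ε, hε0, ?_⟩
  filter_upwards [S.d_pos, (trn_lim S G c n).eventually (gt_mem_nhds hb1')] with i hi h3
  have hd : (0 : ℝ) < S.d i := by exact_mod_cast hi
  rw [trn_eq, div_lt_iff₀ hd] at h3
  set E := (Sd G c (S.tau i)).ev with hE
  have hq0 : 0 ≤ 1 - (Cb G c)⁻¹ * ε := by
    rw [sub_nonneg, inv_mul_le_iff₀ (by linarith)]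
    have := hε1.2
    linarith
  have h4 : (Fintype.card {p // E p ≤ ε} : ℝ) * (1 - (Cb G c)⁻¹ * ε) ^ (2 * n) ≤
      ∑ p, (1 - (Cb G c)⁻¹ * E p) ^ (2 * n) := by
    rw [Fintype.card_subtype]
    calc ((univ.filter fun p => E p ≤ ε).card : ℝ) * (1 - (Cb G c)⁻¹ * ε) ^ (2 * n)
        = ∑ p ∈ univ.filter (fun p => E p ≤ ε), (1 - (Cb G c)⁻¹ * ε) ^ (2 * n) := by
          rw [Finset.sum_const, nsmul_eq_mul]
      _ ≤ ∑ p ∈ univ.filter (fun p => E p ≤ ε), (1 - (Cb G c)⁻¹ * E p) ^ (2 * n) := by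
          refine Finset.sum_le_sum fun p hp => ?_
          have := (Finset.mem_filter.1 hp).2
          gcongr
      _ ≤ _ := by
          refine Finset.sum_le_sum_of_subset_of_nonneg (Finset.subset_univ _) fun p _ _ => ?_
          have := ev01 S G c i p
          exact pow_nonneg (by linarith [this.2]) _
  have hpos : 0 < (1 - (Cb G c)⁻¹ * ε) ^ (2 * n) := by
    rcases eq_or_lt_of_le (pow_nonneg hq0 (2 * n)) with h | h
    · rw [← h, mul_zero] at h2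
      linarith
    · exact h
  have h5 : (Fintype.card {p // E p ≤ ε} : ℝ) * (1 - (Cb G c)⁻¹ * ε) ^ (2 * n) ≤
      (b * S.d i) * (1 - (Cb G c)⁻¹ * ε) ^ (2 * n) := by
    have : b1 * S.d i ≤ (b * (1 - (Cb G c)⁻¹ * ε) ^ (2 * n)) * S.d i :=
      mul_le_mul_of_nonneg_right h2.le hd.le
    calc _ ≤ _ := h4
      _ ≤ b1 * S.d i := h3.le
      _ ≤ _ := this
      _ = _ := by ring
  exact le_of_mul_le_mul_right h5 hpos

theorem ker_lower [DecidableEq Γ] (S : Sofic Γ) (G : Finset Γ) (c : κ → Γ → Fin m → ℤ)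
    (b : ℝ) (hb : ∀ n, b ≤ ∑ l, beta G c n l) (η : ℝ) (hη : 0 < η) :
    ∀ᶠ i in atTop, (b - η) * S.d i ≤
      Module.finrank ℝ (LinearMap.ker (Rm G c (S.tau i)).mulVecLin) := by
  have hC := one_le_Cb G c
  have hlogC : 0 ≤ Real.log (Cb G c) := Real.log_nonneg hC
  -- choose `ε`
  obtain ⟨ε, hε0, hε1, hε⟩ : ∃ ε : ℝ, 0 < ε ∧ ε < 1 ∧
      m * Real.log (Cb G c) ≤ η / 3 * Real.log (1 / ε) := by
    refine ⟨Real.exp (-(3 * (m * Real.log (Cb G c)) / η + 1)), Real.exp_pos _, ?_, ?_⟩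
    · rw [Real.exp_lt_one_iff]
      have : 0 ≤ 3 * (m * Real.log (Cb G c)) / η := by positivity
      linarith
    · rw [one_div, Real.log_inv, Real.log_exp, neg_neg, mul_add]
      have : η / 3 * (3 * (m * Real.log (Cb G c)) / η) = m * Real.log (Cb G c) := by
        field_simp
      rw [this]
      linarith
  have hq0 : 0 ≤ 1 - (Cb G c)⁻¹ * ε := by
    rw [sub_nonneg, inv_mul_le_iff₀ (by linarith)]
    linarith
  have hq1 : 1 - (Cb G c)⁻¹ * ε < 1 := by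
    have : 0 < (Cb G c)⁻¹ * ε := by positivity
    linarith
  -- choose `n`
  obtain ⟨n, hn⟩ : ∃ n : ℕ, (m : ℝ) * (1 - (Cb G c)⁻¹ * ε) ^ (2 * n) ≤ η / 3 := by
    have h1 : Tendsto (fun n : ℕ => (m : ℝ) * (1 - (Cb G c)⁻¹ * ε) ^ n) atTop (𝓝 (m * 0)) :=
      (tendsto_pow_atTop_nhds_zero_of_lt_one hq0 hq1).const_mul _
    rw [mul_zero] at h1
    have h2 : Tendsto (fun n : ℕ => (m : ℝ) * (1 - (Cb G c)⁻¹ * ε) ^ (2 * n)) atTop (𝓝 0) :=
      h1.comp (tendsto_id.const_mul_atTop' (by norm_num : 0 < 2))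
    obtain ⟨n, hn⟩ := (h2.eventually (gt_mem_nhds (show (0 : ℝ) < η / 3 by positivity))).exists
    exact ⟨n, hn.le⟩
  filter_upwards [S.d_pos, (trn_lim S G c n).eventually
    (lt_mem_nhds (show b - η / 3 < ∑ l, beta G c n l by linarith [hb n]))] with i hi h3
  have hd : (0 : ℝ) < S.d i := by exact_mod_cast hi
  rw [trn_eq, lt_div_iff₀ hd] at h3
  set SD := Sd G c (S.tau i) with hSD
  have hsmall := small_card (Zm G c (S.tau i)) SD (Cb G c) hC (Rm_bound G c _) ε hε0 hε1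
  have hcardb : (Fintype.card (Fin (S.d i) × Fin m) : ℝ) = S.d i * m := by
    rw [Fintype.card_prod, Fintype.card_fin, Fintype.card_fin]; push_cast; ring
  rw [hcardb] at hsmall
  have hlog : 0 < Real.log (1 / ε) := Real.log_pos (by rw [lt_div_iff₀ hε0]; linarith)
  have h4 : (Fintype.card {p // 0 < SD.ev p ∧ SD.ev p ≤ ε} : ℝ) ≤ η / 3 * S.d i := by
    have : (Fintype.card {p // 0 < SD.ev p ∧ SD.ev p ≤ ε} : ℝ) * Real.log (1 / ε) ≤
        (η / 3 * S.d i) * Real.log (1 / ε) := by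
      calc _ ≤ _ := hsmall
        _ = (m * Real.log (Cb G c)) * S.d i := by ring
        _ ≤ (η / 3 * Real.log (1 / ε)) * S.d i := mul_le_mul_of_nonneg_right hε hd.le
        _ = _ := by ring
    exact le_of_mul_le_mul_right this hlog
  have h5 : ∑ p, (1 - (Cb G c)⁻¹ * SD.ev p) ^ (2 * n) ≤
      ∑ p, ((if SD.ev p = 0 then (1 : ℝ) else 0) + (if 0 < SD.ev p ∧ SD.ev p ≤ ε then 1 else 0) +
        (1 - (Cb G c)⁻¹ * ε) ^ (2 * n)) := by
    refine Finset.sum_le_sum fun p _ => ?_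
    have h01 := ev01 S G c i p
    have hp0 : 0 ≤ (1 - (Cb G c)⁻¹ * ε) ^ (2 * n) := pow_nonneg hq0 _
    have hle1 : (1 - (Cb G c)⁻¹ * SD.ev p) ^ (2 * n) ≤ 1 :=
      pow_le_one₀ (by linarith [h01.2]) (by linarith [h01.1])
    by_cases ha : SD.ev p = 0
    · rw [if_pos ha]
      have : (0 : ℝ) ≤ if 0 < SD.ev p ∧ SD.ev p ≤ ε then 1 else 0 := by split_ifs <;> norm_num
      linarith
    · rw [if_neg ha]
      by_cases hb' : 0 < SD.ev p ∧ SD.ev p ≤ ε
      · rw [if_pos hb']; linarith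
      · rw [if_neg hb']
        have hpos : 0 < SD.ev p := lt_of_le_of_ne (SD.ev_nonneg p) (Ne.symm ha)
        have hge : ε < SD.ev p := by
          by_contra h
          exact hb' ⟨hpos, not_lt.1 h⟩
        have : (1 - (Cb G c)⁻¹ * SD.ev p) ^ (2 * n) ≤ (1 - (Cb G c)⁻¹ * ε) ^ (2 * n) := by
          apply pow_le_pow_left₀ (by linarith [h01.2])
          have : (Cb G c)⁻¹ * ε ≤ (Cb G c)⁻¹ * SD.ev p :=
            mul_le_mul_of_nonneg_left hge.le (by positivity)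
          linarith
        linarith
  rw [Finset.sum_add_distrib, Finset.sum_add_distrib, ← Finset.sum_filter, ← Finset.sum_filter,
    Finset.sum_const, Finset.sum_const, Finset.sum_const] at h5
  simp only [nsmul_eq_mul, mul_one, Finset.card_univ] at h5
  rw [hcardb] at h5
  have h6 : ((univ.filter fun p => SD.ev p = 0).card : ℝ) =
      Module.finrank ℝ (LinearMap.ker (Rm G c (S.tau i)).mulVecLin) := by
    rw [← SD.card_zero, Fintype.card_subtype]
  have h7 : ((univ.filter fun p => 0 < SD.ev p ∧ SD.ev p ≤ ε).card : ℝ) =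
      Fintype.card {p // 0 < SD.ev p ∧ SD.ev p ≤ ε} := by
    rw [Fintype.card_subtype]
  rw [h6, h7] at h5
  have h8 : (S.d i : ℝ) * m * (1 - (Cb G c)⁻¹ * ε) ^ (2 * n) ≤ η / 3 * S.d i := by
    calc _ = (m * (1 - (Cb G c)⁻¹ * ε) ^ (2 * n)) * S.d i := by ring
      _ ≤ _ := mul_le_mul_of_nonneg_right hn hd.le
  nlinarith

end Pool.Agent.V11111.MD
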