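import Mathlib
import Pool.Agent.H13.L.S8.H919R3.L2.Op

/-! Rank and nullity for equivariant operators. -/

set_option autoImplicit false

open scoped InnerProductSpace InnerProduct ENNReal
open Filter Topology
open Pool.Agent.H919R3.L2

noncomputable section

namespace Pool.Agent.V11111.MD

section Hilb
variable {E F : Type*} [NormedAddCommGroup E] [InnerProductSpace ℂ E] [CompleteSpace E]
  [NormedAddCommGroup F] [InnerProductSpace ℂ F] [CompleteSpace F]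

/-- `1 - t N† N` -/
def QQ (N : E →L[ℂ] F) (t : ℝ) : E →L[ℂ] E :=
  1 - (t : ℂ) • ((ContinuousLinearMap.adjoint N).comp N)

variable (N : E →L[ℂ] F) (C : ℝ) (hC : 0 < C) (hN : ∀ x, ‖N x‖ ^ 2 ≤ C * ‖x‖ ^ 2)

theorem QQ_apply (t : ℝ) (x : E) : QQ N t x = x - (t : ℂ) • ContinuousLinearMap.adjoint N (N x) := rfl

include hC hN in
theorem adj_bound (y : F) : ‖ContinuousLinearMap.adjoint N y‖ ^ 2 ≤ C * ‖y‖ ^ 2 := by
  have h1 : ‖N‖ ≤ Real.sqrt C := by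
    refine ContinuousLinearMap.opNorm_le_bound _ (Real.sqrt_nonneg _) fun x => ?_
    rw [← Real.sqrt_sq (norm_nonneg x), ← Real.sqrt_mul hC.le]
    exact Real.le_sqrt_of_sq_le (hN x)
  have h2 : ‖ContinuousLinearMap.adjoint N y‖ ≤ Real.sqrt C * ‖y‖ := by
    refine ((ContinuousLinearMap.adjoint N).le_opNorm y).trans ?_
    rw [LinearIsometryEquiv.norm_map]
    gcongr
  calc ‖ContinuousLinearMap.adjoint N y‖ ^ 2 ≤ (Real.sqrt C * ‖y‖) ^ 2 := by gcongr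
    _ = C * ‖y‖ ^ 2 := by rw [mul_pow, Real.sq_sqrt hC.le]

include hC hN in
theorem QQ_norm (x : E) : ‖QQ N C⁻¹ x‖ ^ 2 ≤ ‖x‖ ^ 2 - C⁻¹ * ‖N x‖ ^ 2 := by
  rw [QQ_apply, @norm_sub_sq ℂ, inner_smul_right, ContinuousLinearMap.adjoint_inner_right,
    inner_self_eq_norm_sq_to_K, norm_smul]
  have h1 : RCLike.re (((C⁻¹ : ℝ) : ℂ) * ((‖N x‖ : ℂ) ^ 2)) = C⁻¹ * ‖N x‖ ^ 2 := by
    have : ((C⁻¹ : ℝ) : ℂ) * ((‖N x‖ : ℂ) ^ 2) = ((C⁻¹ * ‖N x‖ ^ 2 : ℝ) : ℂ) := by push_cast; ring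
    rw [this]
    exact Complex.ofReal_re _
  have h2 : ‖((C⁻¹ : ℝ) : ℂ)‖ = C⁻¹ := by
    rw [Complex.norm_real, Real.norm_eq_abs, abs_of_pos (inv_pos.2 hC)]
  have h3 := adj_bound N C hC hN (N x)
  have h4 : (C⁻¹ * ‖ContinuousLinearMap.adjoint N (N x)‖) ^ 2 ≤ C⁻¹ * ‖N x‖ ^ 2 := by
    rw [mul_pow]
    calc C⁻¹ ^ 2 * ‖ContinuousLinearMap.adjoint N (N x)‖ ^ 2 ≤ C⁻¹ ^ 2 * (C * ‖N x‖ ^ 2) := by gcongr
      _ = C⁻¹ * ‖N x‖ ^ 2 := by field_simp
  rw [h2]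
  have h5 : RCLike.re (((C⁻¹ : ℝ) : ℂ) * ((RCLike.ofReal ‖N x‖ : ℂ) ^ 2)) = C⁻¹ * ‖N x‖ ^ 2 := h1
  rw [h5]
  linarith

include hC hN in
theorem QQ_contr (x : E) : ‖QQ N C⁻¹ x‖ ≤ ‖x‖ := by
  have h := QQ_norm N C hC hN x
  have h1 : 0 ≤ C⁻¹ * ‖N x‖ ^ 2 := by positivity
  exact abs_le_of_sq_le_sq (by linarith) (norm_nonneg _) |> (abs_le.1 · |>.2)

include hC hN in
theorem QQ_pow_contr (n : ℕ) (x : E) : ‖(QQ N C⁻¹ ^ n) x‖ ≤ ‖x‖ := by
  induction n with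
  | zero => simp
  | succ n ih =>
    rw [pow_succ', ContinuousLinearMap.mul_apply]
    exact (QQ_contr N C hC hN _).trans ih

theorem QQ_comm (t : ℝ) (n : ℕ) (x : E) :
    ContinuousLinearMap.adjoint N (N ((QQ N t ^ n) x)) =
      (QQ N t ^ n) (ContinuousLinearMap.adjoint N (N x)) := by
  induction n generalizing x with
  | zero => simp
  | succ n ih =>
    rw [pow_succ, ContinuousLinearMap.mul_apply, ContinuousLinearMap.mul_apply, ih]
    congr 1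
    rw [QQ_apply, QQ_apply, map_sub, map_sub, map_smul, map_smul]

include hC hN in
theorem QQ_pow_T (x : E) :
    Tendsto (fun n => ‖(QQ N C⁻¹ ^ n) (ContinuousLinearMap.adjoint N (N x))‖) atTop (𝓝 0) := by
  have hs : Summable fun n => ‖N ((QQ N C⁻¹ ^ n) x)‖ ^ 2 := by
    refine summable_of_sum_range_le (c := C * ‖x‖ ^ 2) (fun _ => sq_nonneg _) fun n => ?_
    have h1 : ∀ k, ‖N ((QQ N C⁻¹ ^ k) x)‖ ^ 2 ≤
        C * (‖(QQ N C⁻¹ ^ k) x‖ ^ 2 - ‖(QQ N C⁻¹ ^ (k + 1)) x‖ ^ 2) := by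
      intro k
      have := QQ_norm N C hC hN ((QQ N C⁻¹ ^ k) x)
      rw [← ContinuousLinearMap.mul_apply, ← pow_succ'] at this
      have h2 : C⁻¹ * ‖N ((QQ N C⁻¹ ^ k) x)‖ ^ 2 ≤
        (‖(QQ N C⁻¹ ^ k) x‖ ^ 2 - ‖(QQ N C⁻¹ ^ (k + 1)) x‖ ^ 2) := by linarith
      rwa [inv_mul_le_iff₀ hC] at h2
    calc ∑ k ∈ Finset.range n, ‖N ((QQ N C⁻¹ ^ k) x)‖ ^ 2
        ≤ ∑ k ∈ Finset.range n, C * (‖(QQ N C⁻¹ ^ k) x‖ ^ 2 - ‖(QQ N C⁻¹ ^ (k + 1)) x‖ ^ 2) :=
          Finset.sum_le_sum fun k _ => h1 k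
      _ = C * (‖(QQ N C⁻¹ ^ 0) x‖ ^ 2 - ‖(QQ N C⁻¹ ^ n) x‖ ^ 2) := by
          rw [← Finset.mul_sum, Finset.sum_range_sub' (fun k => ‖(QQ N C⁻¹ ^ k) x‖ ^ 2)]
      _ ≤ C * ‖x‖ ^ 2 := by
          rw [pow_zero, ContinuousLinearMap.one_apply]
          gcongr
          have := sq_nonneg ‖(QQ N C⁻¹ ^ n) x‖
          linarith
  have h0 := hs.tendsto_atTop_zero
  have h1 : Tendsto (fun n => Real.sqrt (C * ‖N ((QQ N C⁻¹ ^ n) x)‖ ^ 2)) atTop (𝓝 0) := by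
    have := ((h0.const_mul C).sqrt)
    rwa [mul_zero, Real.sqrt_zero] at this
  refine squeeze_zero (fun _ => norm_nonneg _) (fun n => ?_) h1
  rw [← QQ_comm]
  exact Real.le_sqrt_of_sq_le (adj_bound N C hC hN _)

theorem QQ_self_adj (t : ℝ) (x y : E) : ⟪QQ N t x, y⟫_ℂ = ⟪x, QQ N t y⟫_ℂ := by
  rw [QQ_apply, QQ_apply, inner_sub_left, inner_sub_right, inner_smul_left, inner_smul_right,
    Complex.conj_ofReal, ContinuousLinearMap.adjoint_inner_left,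
    ContinuousLinearMap.adjoint_inner_right]

theorem QQ_pow_self_adj (t : ℝ) (n : ℕ) (x y : E) :
    ⟪(QQ N t ^ n) x, y⟫_ℂ = ⟪x, (QQ N t ^ n) y⟫_ℂ := by
  induction n generalizing x y with
  | zero => simp
  | succ n ih =>
    rw [pow_succ, ContinuousLinearMap.mul_apply, ih, QQ_self_adj, ← ContinuousLinearMap.mul_apply,
      ← pow_succ', pow_succ]

theorem QQ_pow_ker (t : ℝ) (n : ℕ) (x : E) (hx : N x = 0) : (QQ N t ^ n) x = x := by
  induction n with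
  | zero => simp
  | succ n ih =>
    rw [pow_succ', ContinuousLinearMap.mul_apply, ih, QQ_apply, hx, map_zero, smul_zero, sub_zero]

/-- the kernel as a submodule -/
def kr (N : E →L[ℂ] F) : Submodule ℂ E := LinearMap.ker (N : E →ₗ[ℂ] F)

theorem mem_kr (x : E) : x ∈ kr N ↔ N x = 0 := LinearMap.mem_ker

instance : CompleteSpace (kr N) := by
  have : IsClosed (kr N : Set E) := by
    have : (kr N : Set E) = N ⁻¹' {0} := by ext x; simp [mem_kr]
    rw [this]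
    exact isClosed_singleton.preimage N.continuous
  exact this.completeSpace_coe

include hC hN in
theorem QQ_orth (x : E) (hx : x ∈ (kr N)ᗮ) :
    Tendsto (fun n => ‖(QQ N C⁻¹ ^ n) x‖) atTop (𝓝 0) := by
  -- density of the range of `N† N`
  have hdense : x ∈ closure (Set.range fun y => ContinuousLinearMap.adjoint N (N y)) := by
    set A : E →L[ℂ] E := (ContinuousLinearMap.adjoint N).comp N with hA
    have h1 : (kr N)ᗮ ≤ (LinearMap.range (A : E →ₗ[ℂ] E)).topologicalClosure := by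
      rw [← Submodule.orthogonal_orthogonal_eq_closure]
      apply Submodule.orthogonal_le
      intro z hz
      rw [mem_kr]
      have h2 : ⟪A z, z⟫_ℂ = 0 := Submodule.inner_right_of_mem_orthogonal
        (show A z ∈ LinearMap.range (A : E →ₗ[ℂ] E) from ⟨z, rfl⟩) hz
      have h3 : ⟪N z, N z⟫_ℂ = 0 := by
        rw [← ContinuousLinearMap.adjoint_inner_left]; exact h2
      exact inner_self_eq_zero.1 h3
    have h4 := h1 hx
    have h5 : x ∈ ((LinearMap.range (A : E →ₗ[ℂ] E)).topologicalClosure : Set E) := h4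
    rw [Submodule.topologicalClosure_coe] at h5
    exact h5
  rw [Metric.tendsto_atTop]
  intro ε hε
  rw [Metric.mem_closure_iff] at hdense
  obtain ⟨z, ⟨y, rfl⟩, hz⟩ := hdense (ε / 2) (by positivity)
  have h1 := QQ_pow_T N C hC hN y
  rw [Metric.tendsto_atTop] at h1
  obtain ⟨n₀, hn₀⟩ := h1 (ε / 2) (by positivity)
  refine ⟨n₀, fun n hn => ?_⟩
  have h2 := hn₀ n hn
  simp only [dist_zero_right, norm_norm] at h2 ⊢
  rw [dist_eq_norm] at hz
  calc ‖(QQ N C⁻¹ ^ n) x‖ = ‖(QQ N C⁻¹ ^ n) (x - ContinuousLinearMap.adjoint N (N y)) +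
        (QQ N C⁻¹ ^ n) (ContinuousLinearMap.adjoint N (N y))‖ := by
        rw [← map_add, sub_add_cancel]
    _ ≤ ‖x - ContinuousLinearMap.adjoint N (N y)‖ +
        ‖(QQ N C⁻¹ ^ n) (ContinuousLinearMap.adjoint N (N y))‖ :=
        (norm_add_le _ _).trans (add_le_add (QQ_pow_contr N C hC hN n _) le_rfl)
    _ < ε := by linarith

/-- decomposition -/
theorem QQ_decomp (t : ℝ) (n : ℕ) (x : E) :
    ‖(QQ N t ^ n) x‖ ^ 2 = ‖(kr N).starProjection x‖ ^ 2 +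
      ‖(QQ N t ^ n) (x - (kr N).starProjection x)‖ ^ 2 := by
  set p := (kr N).starProjection x with hp
  have hpk : N p = 0 := (mem_kr N p).1 (Submodule.starProjection_apply_mem _ _)
  have h1 : (QQ N t ^ n) x = p + (QQ N t ^ n) (x - p) := by
    rw [map_sub, QQ_pow_ker N t n p hpk]; abel
  have h2 : ⟪p, (QQ N t ^ n) (x - p)⟫_ℂ = 0 := by
    rw [← QQ_pow_self_adj, QQ_pow_ker N t n p hpk]
    exact Submodule.inner_right_of_mem_orthogonal (Submodule.starProjection_apply_mem _ _)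
      (Submodule.sub_starProjection_mem_orthogonal x)
  rw [h1]
  have h4 := norm_add_sq_eq_norm_sq_add_norm_sq_of_inner_eq_zero _ _ h2
  simpa [sq] using h4

include hC hN in
theorem QQ_lim (x : E) :
    Tendsto (fun n => ‖(QQ N C⁻¹ ^ n) x‖ ^ 2) atTop (𝓝 (‖(kr N).starProjection x‖ ^ 2)) := by
  have h1 := QQ_orth N C hC hN _ (Submodule.sub_starProjection_mem_orthogonal (K := kr N) x)
  have h2 : Tendsto (fun n => ‖(kr N).starProjection x‖ ^ 2 +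
      ‖(QQ N C⁻¹ ^ n) (x - (kr N).starProjection x)‖ ^ 2) atTop
      (𝓝 (‖(kr N).starProjection x‖ ^ 2 + 0 ^ 2)) := (h1.pow 2).const_add _
  rw [zero_pow (by norm_num), add_zero] at h2
  exact h2.congr fun n => (QQ_decomp N C⁻¹ n x).symm

theorem QQ_ge (t : ℝ) (n : ℕ) (x : E) : ‖(kr N).starProjection x‖ ^ 2 ≤ ‖(QQ N t ^ n) x‖ ^ 2 := by
  rw [QQ_decomp]
  have := sq_nonneg ‖(QQ N t ^ n) (x - (kr N).starProjection x)‖
  linarith

theorem N_QQ (t : ℝ) (n : ℕ) (x : E) :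
    N ((QQ N t ^ n) x) = (QQ (ContinuousLinearMap.adjoint N) t ^ n) (N x) := by
  induction n generalizing x with
  | zero => simp
  | succ n ih =>
    rw [pow_succ, pow_succ, ContinuousLinearMap.mul_apply, ContinuousLinearMap.mul_apply, ih]
    congr 1
    rw [QQ_apply, QQ_apply, map_sub, map_smul, ContinuousLinearMap.adjoint_adjoint]

/-- `∑_{k<n} Q^k` -/
def sQ (t : ℝ) (n : ℕ) : E →L[ℂ] E := ∑ k ∈ Finset.range n, QQ N t ^ k

theorem sQ_tele (t : ℝ) (n : ℕ) (x : E) :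
    (t : ℂ) • ContinuousLinearMap.adjoint N (N (sQ N t n x)) = x - (QQ N t ^ n) x := by
  induction n with
  | zero => simp [sQ]
  | succ n ih =>
    rw [sQ, Finset.sum_range_succ, ContinuousLinearMap.add_apply, map_add, map_add, smul_add]
    change (t : ℂ) • ContinuousLinearMap.adjoint N (N (sQ N t n x)) + _ = _
    rw [ih, pow_succ', ContinuousLinearMap.mul_apply, QQ_apply]
    abel

theorem N_sQ (t : ℝ) (n : ℕ) (x : E) :
    N (sQ N t n x) = sQ (ContinuousLinearMap.adjoint N) t n (N x) := by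
  simp only [sQ, ContinuousLinearMap.sum_apply, map_sum]
  exact Finset.sum_congr rfl fun k _ => N_QQ N t k x

end Hilb

section
variable {Γ : Type} [Group Γ] {I J : Type} [Fintype I] [Fintype J]

theorem Eqv.comp' {I J L : Type} {X : EE Γ J →L[ℂ] EE Γ L} {Y : EE Γ I →L[ℂ] EE Γ J}
    (hX : Eqv X) (hY : Eqv Y) : Eqv (X.comp Y) := by
  intro k f
  simp only [ContinuousLinearMap.comp_apply]
  rw [hY, hX]

theorem Eqv.add' {I J : Type} {X Y : EE Γ I →L[ℂ] EE Γ J} (hX : Eqv X) (hY : Eqv Y) :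
    Eqv (X + Y) := by
  intro k f
  simp only [ContinuousLinearMap.add_apply]
  rw [hX, hY, tr_add]

theorem tr_neg' {I : Type} (k : Γ) (f : EE Γ I) : tr k (-f) = - tr k f := by
  have := tr_smul k (-1 : ℂ) f
  simpa using this

theorem tr_sub' {I : Type} (k : Γ) (f g : EE Γ I) : tr k (f - g) = tr k f - tr k g := by
  rw [sub_eq_add_neg, tr_add, tr_neg', ← sub_eq_add_neg]

theorem Eqv.QQ {I J : Type} {N : EE Γ I →L[ℂ] EE Γ J} (hN : Eqv N) (t : ℝ) :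
    Eqv (QQ N t) := by
  intro k f
  rw [QQ_apply, QQ_apply, hN, hN.adjoint, tr_sub', tr_smul]

theorem Eqv.QQ_pow {I J : Type} {N : EE Γ I →L[ℂ] EE Γ J} (hN : Eqv N) (t : ℝ) (n : ℕ) :
    Eqv (MD.QQ N t ^ n) := by
  induction n with
  | zero => intro k f; simp
  | succ n ih =>
    intro k f
    rw [pow_succ, ContinuousLinearMap.mul_apply, ContinuousLinearMap.mul_apply, Eqv.QQ hN, ih]

theorem Eqv.sum' {I J : Type} (s : Finset ℕ) (X : ℕ → (EE Γ I →L[ℂ] EE Γ J))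
    (hX : ∀ k ∈ s, Eqv (X k)) : Eqv (∑ k ∈ s, X k) := by
  classical
  induction s using Finset.induction_on with
  | empty =>
    intro k f
    simp only [Finset.sum_empty, ContinuousLinearMap.zero_apply]
    have := tr_smul k (0 : ℂ) (0 : EE Γ J)
    simpa using this.symm
  | insert a s ha ih =>
    rw [Finset.sum_insert ha]
    exact Eqv.add' (hX a (Finset.mem_insert_self a s))
      (ih fun i hi => hX i (Finset.mem_insert_of_mem hi))

theorem Eqv.sQ {I J : Type} {N : EE Γ I →L[ℂ] EE Γ J} (hN : Eqv N) (t : ℝ) (n : ℕ) :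
    Eqv (sQ N t n) := Eqv.sum' _ _ fun k _ => Eqv.QQ_pow hN t k

/-- the trace identity -/
theorem trace_id (N : EE Γ I →L[ℂ] EE Γ J) (hN : Eqv N) (t : ℝ) (n : ℕ) :
    ∑ i : I, ⟪(dl (1, i) : EE Γ I), dl (1, i) - (QQ N t ^ n) (dl (1, i))⟫_ℂ =
      ∑ j : J, ⟪(dl (1, j) : EE Γ J), dl (1, j) -
        (QQ (ContinuousLinearMap.adjoint N) t ^ n) (dl (1, j))⟫_ℂ := by
  have h := HS N (N.comp (sQ N t n)) hN (Eqv.comp' hN (Eqv.sQ hN t n))
  have e1 : ∀ i : I, ⟪(dl (1, i) : EE Γ I), dl (1, i) - (QQ N t ^ n) (dl (1, i))⟫_ℂ =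
      (t : ℂ) * ⟪N (dl (1, i)), (N.comp (sQ N t n)) (dl (1, i))⟫_ℂ := by
    intro i
    rw [← sQ_tele, inner_smul_right, ContinuousLinearMap.adjoint_inner_right]
    rfl
  have e2 : ∀ j : J, ⟪(dl (1, j) : EE Γ J), dl (1, j) -
        (QQ (ContinuousLinearMap.adjoint N) t ^ n) (dl (1, j))⟫_ℂ =
      (t : ℂ) * ⟪ContinuousLinearMap.adjoint (N.comp (sQ N t n)) (dl (1, j)),
          ContinuousLinearMap.adjoint N (dl (1, j))⟫_ℂ := by
    intro j
    have e3 := N_sQ (ContinuousLinearMap.adjoint N) t n (dl (1, j) : EE Γ J)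
    rw [ContinuousLinearMap.adjoint_adjoint] at e3
    rw [← sQ_tele, inner_smul_right, ContinuousLinearMap.adjoint_adjoint,
      ContinuousLinearMap.adjoint_inner_left, ContinuousLinearMap.comp_apply, e3]
  rw [Finset.sum_congr rfl fun i _ => e1 i, Finset.sum_congr rfl fun j _ => e2 j,
    ← Finset.mul_sum, ← Finset.mul_sum, h]


/-- the von Neumann dimension of the kernel -/
def nu (N : EE Γ I →L[ℂ] EE Γ J) : ℝ := ∑ i : I, ‖(kr N).starProjection (dl ((1 : Γ), i))‖ ^ 2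

omit [Fintype J] in
theorem inner_QQ (N : EE Γ I →L[ℂ] EE Γ J) (t : ℝ) (n : ℕ) (x : EE Γ I) :
    ⟪x, (QQ N t ^ (2 * n)) x⟫_ℂ = ((‖(QQ N t ^ n) x‖ ^ 2 : ℝ) : ℂ) := by
  rw [two_mul, pow_add, ContinuousLinearMap.mul_apply, ← QQ_pow_self_adj, inner_self_eq_norm_sq_to_K]
  norm_cast

theorem exists_bound {E F : Type*} [NormedAddCommGroup E] [InnerProductSpace ℂ E]
    [NormedAddCommGroup F] [InnerProductSpace ℂ F] (N : E →L[ℂ] F) :
    ∃ C : ℝ, 0 < C ∧ ∀ x, ‖N x‖ ^ 2 ≤ C * ‖x‖ ^ 2 := by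
  refine ⟨‖N‖ ^ 2 + 1, by positivity, fun x => ?_⟩
  have := N.le_opNorm x
  calc ‖N x‖ ^ 2 ≤ (‖N‖ * ‖x‖) ^ 2 := by gcongr
    _ ≤ (‖N‖ ^ 2 + 1) * ‖x‖ ^ 2 := by nlinarith [sq_nonneg ‖x‖]

/-- rank-nullity -/
theorem nu_adj (N : EE Γ I →L[ℂ] EE Γ J) (hN : Eqv N) :
    Fintype.card I - nu N = Fintype.card J - nu (ContinuousLinearMap.adjoint N) := by
  obtain ⟨C, hC, hNC⟩ := exists_bound N
  have key : ∀ {I' J' : Type} [Fintype I'] [Fintype J'] (M : EE Γ I' →L[ℂ] EE Γ J')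
      (_ : ∀ x, ‖M x‖ ^ 2 ≤ C * ‖x‖ ^ 2),
      Tendsto (fun n => (∑ i : I', ⟪(dl (1, i) : EE Γ I'), dl (1, i) -
        (QQ M C⁻¹ ^ (2 * n)) (dl (1, i))⟫_ℂ).re) atTop (𝓝 (Fintype.card I' - nu M)) := by
    intro I' J' _ _ M hM
    have h1 : ∀ n, (∑ i : I', ⟪(dl (1, i) : EE Γ I'), dl (1, i) -
        (QQ M C⁻¹ ^ (2 * n)) (dl (1, i))⟫_ℂ).re =
        ∑ i : I', (1 - ‖(QQ M C⁻¹ ^ n) (dl ((1 : Γ), i))‖ ^ 2) := by
      intro n
      rw [Complex.re_sum]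
      refine Finset.sum_congr rfl fun i _ => ?_
      rw [inner_sub_right, inner_QQ, inner_self_eq_norm_sq_to_K, norm_dl, Complex.sub_re,
        Complex.ofReal_re]
      simp
    have h2 : (Fintype.card I' - nu M : ℝ) =
        ∑ i : I', (1 - ‖(kr M).starProjection (dl ((1 : Γ), i))‖ ^ 2) := by
      rw [Finset.sum_sub_distrib, nu]; simp
    rw [h2]
    simp_rw [h1]
    exact tendsto_finsetSum _ fun i _ => (QQ_lim M C hC hM _).const_sub 1
  have k1 := key N hNC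
  have k2 := key (ContinuousLinearMap.adjoint N) (adj_bound N C hC hNC)
  refine tendsto_nhds_unique k1 (k2.congr fun n => ?_)
  rw [trace_id N hN]

theorem nu_nonneg (N : EE Γ I →L[ℂ] EE Γ J) : 0 ≤ nu N := Finset.sum_nonneg fun _ _ => sq_nonneg _

end

end Pool.Agent.V11111.MD
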