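import Mathlib
import Pool.Agent.H13.L.R843.V11111.MD.Defs
import Pool.Agent.H13.L.R843.V11111.MD.RN

/-! Matrices over the group von Neumann algebra and equivariant operators. -/

set_option autoImplicit false

open scoped InnerProductSpace InnerProduct ENNReal ComplexConjugate
open Filter Topology
open Pool.Agent.H919R3.L2

noncomputable section

namespace Pool.Agent.V11111.MD

section
variable {Γ : Type} [Group Γ]

instance (priority := 10000) instInnerEll (Γ : Type) : Inner ℂ (Ell Γ) := (instIPS Γ).toInner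

instance (Γ : Type) : CompleteSpace (Ell Γ) :=
  (inferInstance : CompleteSpace (lp (fun _ : Γ => ℂ) 2))

theorem Ell.ext' {f g : Ell Γ} (h : ∀ x, f.val x = g.val x) : f = g :=
  lp.ext (funext h)

omit [Group Γ] in
theorem val_add (f g : Ell Γ) (x : Γ) : (f + g).val x = f.val x + g.val x := rfl
omit [Group Γ] in
theorem val_sub (f g : Ell Γ) (x : Γ) : (f - g).val x = f.val x - g.val x := rfl
omit [Group Γ] in
theorem val_smul (c : ℂ) (f : Ell Γ) (x : Γ) : (c • f).val x = c * f.val x := rfl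
omit [Group Γ] in
theorem val_zero (x : Γ) : (0 : Ell Γ).val x = 0 := rfl

omit [Group Γ] in
theorem val_sum {ι : Type} (s : Finset ι) (f : ι → Ell Γ) (x : Γ) :
    (∑ i ∈ s, f i).val x = ∑ i ∈ s, (f i).val x := by
  classical
  induction s using Finset.induction_on with
  | empty => simp [val_zero]
  | insert a s ha ih => rw [Finset.sum_insert ha, Finset.sum_insert ha, val_add, ih]

theorem inner_ell (f g : Ell Γ) : ⟪f, g⟫_ℂ = ∑' x, conj (f.val x) * g.val x := by
  have h : ⟪f, g⟫_ℂ = ∑' x, ⟪f.val x, g.val x⟫_ℂ := lp.inner_eq_tsum _ _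
  rw [h]
  refine tsum_congr fun x => ?_
  simp [mul_comm]

theorem dirac_val (g x : Γ) [Decidable (x = g)] : (dirac g).val x = if x = g then 1 else 0 := by
  classical
  unfold dirac Ell.val
  by_cases h : x = g
  · rw [if_pos h, h]
    exact lp.single_apply_self (E := fun _ : Γ => ℂ) 2 g (1 : ℂ)
  · rw [if_neg h]
    exact lp.single_apply_ne (E := fun _ : Γ => ℂ) 2 g (1 : ℂ) h

theorem inner_dirac_left (g : Γ) (f : Ell Γ) : ⟪dirac g, f⟫_ℂ = f.val g := by
  classical
  rw [inner_ell, tsum_eq_single g]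
  · rw [dirac_val, if_pos rfl]; simp
  · intro x hx
    rw [dirac_val, if_neg hx]; simp

theorem inner_dirac_right (g : Γ) (f : Ell Γ) : ⟪f, dirac g⟫_ℂ = conj (f.val g) := by
  rw [← inner_conj_symm, inner_dirac_left]

theorem comp_val (e : Γ ≃ Γ) (f : Ell Γ) (x : Γ) : (comp e f).val x = f.val (e x) := rfl

theorem comp_add (e : Γ ≃ Γ) (f g : Ell Γ) : comp e (f + g) = comp e f + comp e g := rfl
theorem comp_smul (e : Γ ≃ Γ) (c : ℂ) (f : Ell Γ) : comp e (c • f) = c • comp e f := rfl

theorem inner_comp (e : Γ ≃ Γ) (f g : Ell Γ) : ⟪comp e f, comp e g⟫_ℂ = ⟪f, g⟫_ℂ := by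
  rw [inner_ell, inner_ell]
  exact Equiv.tsum_eq e (fun x => conj (f.val x) * g.val x)

theorem inner_comp_left (e : Γ ≃ Γ) (f g : Ell Γ) : ⟪comp e f, g⟫_ℂ = ⟪f, comp e.symm g⟫_ℂ := by
  rw [← inner_comp e f]
  congr 1
  apply Ell.ext'
  intro x
  rw [comp_val, comp_val, Equiv.symm_apply_apply]

/-- two bounded operators which agree on the basis are equal -/
theorem clm_ext_dirac {F : Type*} [NormedAddCommGroup F] [InnerProductSpace ℂ F] [CompleteSpace F]
    (X Y : Ell Γ →L[ℂ] F) (h : ∀ g, X (dirac g) = Y (dirac g)) : X = Y := by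
  ext f
  apply ext_inner_left ℂ
  intro v
  rw [← ContinuousLinearMap.adjoint_inner_left, ← ContinuousLinearMap.adjoint_inner_left]
  congr 1
  apply Ell.ext'
  intro g
  rw [← inner_dirac_left, ← inner_dirac_left, ContinuousLinearMap.adjoint_inner_right,
    ContinuousLinearMap.adjoint_inner_right, h]

/-- the conjugation `(J f)(g) = conj f(g⁻¹)` -/
def Jm (f : Ell Γ) : Ell Γ :=
  ⟨fun g => conj (f.val g⁻¹), by
    have h : Memℓp (fun g => f.val g⁻¹) 2 := memlp_equiv (Equiv.inv Γ) f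
    have h2 := (memℓp_gen_iff (by norm_num)).1 h
    refine (memℓp_gen_iff (by norm_num)).2 ?_
    simpa using h2⟩

theorem Jm_val (f : Ell Γ) (g : Γ) : (Jm f).val g = conj (f.val g⁻¹) := rfl

theorem Jm_add (f g : Ell Γ) : Jm (f + g) = Jm f + Jm g := by
  apply Ell.ext'; intro x
  rw [Jm_val, val_add, val_add, map_add, Jm_val, Jm_val]

theorem Jm_smul (c : ℂ) (f : Ell Γ) : Jm (c • f) = conj c • Jm f := by
  apply Ell.ext'; intro x
  rw [Jm_val, val_smul, val_smul, map_mul, Jm_val]

theorem Jm_Jm (f : Ell Γ) : Jm (Jm f) = f := by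
  apply Ell.ext'; intro x
  rw [Jm_val, Jm_val, inv_inv, Complex.conj_conj]

theorem inner_Jm (f g : Ell Γ) : ⟪Jm f, Jm g⟫_ℂ = ⟪g, f⟫_ℂ := by
  rw [inner_ell, inner_ell, ← Equiv.tsum_eq (Equiv.inv Γ)]
  refine tsum_congr fun x => ?_
  rw [Equiv.inv_apply, Jm_val, Jm_val, inv_inv, Complex.conj_conj, mul_comm]

theorem norm_Jm (f : Ell Γ) : ‖Jm f‖ = ‖f‖ := by
  have h := inner_Jm f f
  rw [inner_self_eq_norm_sq_to_K, inner_self_eq_norm_sq_to_K] at h
  have h2 : ‖Jm f‖ ^ 2 = ‖f‖ ^ 2 := by exact_mod_cast h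
  exact (sq_eq_sq₀ (norm_nonneg _) (norm_nonneg _)).1 h2

theorem Jm_dirac_one : Jm (dirac (1 : Γ)) = dirac 1 := by
  classical
  apply Ell.ext'; intro x
  rw [Jm_val, dirac_val, dirac_val]
  by_cases h : x = 1
  · rw [if_pos h, if_pos (by rw [h, inv_one]), map_one]
  · rw [if_neg h, if_neg (by rwa [inv_eq_one]), map_zero]

theorem Jm_right (k : Γ) (f : Ell Γ) :
    Jm (comp (Equiv.mulRight k) f) = comp (Equiv.mulLeft k⁻¹) (Jm f) := by
  apply Ell.ext'; intro x
  rw [Jm_val, comp_val, comp_val, Jm_val]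
  simp

theorem Jm_left (k : Γ) (f : Ell Γ) :
    Jm (comp (Equiv.mulLeft k) f) = comp (Equiv.mulRight k⁻¹) (Jm f) := by
  apply Ell.ext'; intro x
  rw [Jm_val, comp_val, comp_val, Jm_val]
  simp

/-- `J B† J` -/
def JBJ (B : Ell Γ →L[ℂ] Ell Γ) : Ell Γ →L[ℂ] Ell Γ :=
  LinearMap.mkContinuous
    { toFun := fun f => Jm (ContinuousLinearMap.adjoint B (Jm f))
      map_add' := fun f g => by rw [Jm_add, map_add, Jm_add]
      map_smul' := fun c f => by
        rw [Jm_smul, map_smul, Jm_smul, Complex.conj_conj]; rfl } ‖B‖ (by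
      intro f
      change ‖Jm (ContinuousLinearMap.adjoint B (Jm f))‖ ≤ _
      rw [norm_Jm]
      refine ((ContinuousLinearMap.adjoint B).le_opNorm _).trans ?_
      rw [LinearIsometryEquiv.norm_map, norm_Jm])

theorem JBJ_apply (B : Ell Γ →L[ℂ] Ell Γ) (f : Ell Γ) :
    JBJ B f = Jm (ContinuousLinearMap.adjoint B (Jm f)) := rfl

/-- commutes with the left translations -/
def LeftC (B : Ell Γ →L[ℂ] Ell Γ) : Prop :=
  ∀ (k : Γ) (f : Ell Γ), B (comp (Equiv.mulLeft k) f) = comp (Equiv.mulLeft k) (B f)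

/-- commutes with the right translations -/
def RightC (B : Ell Γ →L[ℂ] Ell Γ) : Prop :=
  ∀ (k : Γ) (f : Ell Γ), B (comp (Equiv.mulRight k) f) = comp (Equiv.mulRight k) (B f)

theorem symm_left (k : Γ) : (Equiv.mulLeft k).symm = Equiv.mulLeft k⁻¹ := by
  ext x; simp
theorem symm_right (k : Γ) : (Equiv.mulRight k).symm = Equiv.mulRight k⁻¹ := by
  ext x; simp

theorem LeftC.adj {B : Ell Γ →L[ℂ] Ell Γ} (h : LeftC B) :
    LeftC (ContinuousLinearMap.adjoint B) := by
  intro k f
  apply ext_inner_right ℂ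
  intro v
  rw [ContinuousLinearMap.adjoint_inner_left, inner_comp_left, inner_comp_left, symm_left, ← h,
    ContinuousLinearMap.adjoint_inner_left]

theorem RightC.adj {B : Ell Γ →L[ℂ] Ell Γ} (h : RightC B) :
    RightC (ContinuousLinearMap.adjoint B) := by
  intro k f
  apply ext_inner_right ℂ
  intro v
  rw [ContinuousLinearMap.adjoint_inner_left, inner_comp_left, inner_comp_left, symm_right, ← h,
    ContinuousLinearMap.adjoint_inner_left]

theorem LeftC.J {B : Ell Γ →L[ℂ] Ell Γ} (h : LeftC B) : RightC (JBJ B) := by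
  intro k f
  rw [JBJ_apply, JBJ_apply, Jm_right, h.adj, Jm_left, inv_inv]

theorem RightC.J {B : Ell Γ →L[ℂ] Ell Γ} (h : RightC B) : LeftC (JBJ B) := by
  intro k f
  rw [JBJ_apply, JBJ_apply, Jm_left, h.adj, Jm_right, inv_inv]

theorem right_dirac (g : Γ) : dirac g = comp (Equiv.mulRight g⁻¹) (dirac 1) := by
  classical
  apply Ell.ext'; intro x
  rw [comp_val, dirac_val, dirac_val]
  simp only [Equiv.coe_mulRight, mul_inv_eq_one]

theorem left_dirac (g : Γ) : dirac g = comp (Equiv.mulLeft g⁻¹) (dirac 1) := by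
  classical
  apply Ell.ext'; intro x
  rw [comp_val, dirac_val, dirac_val]
  simp only [Equiv.coe_mulLeft, inv_mul_eq_one, eq_comm]

theorem RightC.Jm_dirac {z : Ell Γ →L[ℂ] Ell Γ} (h : RightC z) :
    Jm (z (dirac 1)) = ContinuousLinearMap.adjoint z (dirac 1) := by
  apply Ell.ext'; intro g
  rw [Jm_val, ← inner_dirac_left g (ContinuousLinearMap.adjoint z (dirac 1)),
    ContinuousLinearMap.adjoint_inner_right, inner_dirac_right, right_dirac g, h, comp_val]
  simp

theorem LeftC.Jm_dirac {z : Ell Γ →L[ℂ] Ell Γ} (h : LeftC z) :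
    Jm (z (dirac 1)) = ContinuousLinearMap.adjoint z (dirac 1) := by
  apply Ell.ext'; intro g
  rw [Jm_val, ← inner_dirac_left g (ContinuousLinearMap.adjoint z (dirac 1)),
    ContinuousLinearMap.adjoint_inner_right, inner_dirac_right, left_dirac g, h, comp_val]
  simp

theorem LeftC.JBJ_dirac {B : Ell Γ →L[ℂ] Ell Γ} (h : LeftC B) :
    JBJ B (dirac 1) = B (dirac 1) := by
  rw [JBJ_apply, Jm_dirac_one, ← h.Jm_dirac, Jm_Jm]

/-- the operator of an element of `L(Γ)` -/
def opL (x : LG Γ) : Ell Γ →L[ℂ] Ell Γ := x.1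

theorem opL_right (x : LG Γ) : RightC (opL x) := x.2
theorem opL_mul (x y : LG Γ) : opL (x * y) = (opL x).comp (opL y) := rfl
theorem opL_add (x y : LG Γ) : opL (x + y) = opL x + opL y := rfl
theorem opL_sub (x y : LG Γ) : opL (x - y) = opL x - opL y := rfl
theorem opL_one : opL (1 : LG Γ) = 1 := rfl
theorem opL_zero : opL (0 : LG Γ) = 0 := rfl
theorem opL_lam (g : Γ) (f : Ell Γ) : opL (lam g) f = comp (Equiv.mulLeft g⁻¹) f := rfl
theorem opL_inj {x y : LG Γ} (h : opL x = opL y) : x = y := Subtype.ext h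
theorem vtr_eq (x : LG Γ) : vtr x = (opL x (dirac 1)).val 1 := rfl

theorem opL_sum {ι : Type} (s : Finset ι) (f : ι → LG Γ) :
    opL (∑ i ∈ s, f i) = ∑ i ∈ s, opL (f i) := by
  classical
  induction s using Finset.induction_on with
  | empty => simp [opL_zero]
  | insert a s ha ih => rw [Finset.sum_insert ha, Finset.sum_insert ha, opL_add, ih]

theorem opL_sep {x y : LG Γ} (h : opL x (dirac 1) = opL y (dirac 1)) : x = y := by
  apply opL_inj
  apply clm_ext_dirac
  intro g
  rw [right_dirac g, opL_right, opL_right, h]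

/-- the element of `L(Γ)` given by an operator commuting with left translations -/
def toL (B : Ell Γ →L[ℂ] Ell Γ) (h : LeftC B) : LG Γ := ⟨JBJ B, h.J⟩

theorem toL_dirac (B : Ell Γ →L[ℂ] Ell Γ) (h : LeftC B) :
    opL (toL B h) (dirac 1) = B (dirac 1) := h.JBJ_dirac

/-- right multiplication by `y` -/
def Rop (y : LG Γ) : Ell Γ →L[ℂ] Ell Γ := JBJ (opL y)

theorem Rop_left (y : LG Γ) : LeftC (Rop y) := (opL_right y).J

theorem Rop_apply (y z : LG Γ) : Rop y (opL z (dirac 1)) = opL (z * y) (dirac 1) := by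
  rw [Rop, JBJ_apply, (opL_right z).Jm_dirac]
  have h1 : ContinuousLinearMap.adjoint (opL y) (ContinuousLinearMap.adjoint (opL z) (dirac 1)) =
      ContinuousLinearMap.adjoint (opL (z * y)) (dirac 1) := by
    rw [opL_mul, ContinuousLinearMap.adjoint_comp]; rfl
  rw [h1, ← (opL_right (z * y)).Jm_dirac, Jm_Jm]

end

section
variable {Γ : Type} [Group Γ] {I J : Type}

/-- a slice -/
def sl (i : I) : EE Γ I →L[ℂ] Ell Γ :=
  LinearMap.mkContinuous
    { toFun := fun F => (⟨fun g => F (g, i), memlp_comp_inj (fun g : Γ => (g, i))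
        (fun a b h => (Prod.mk.inj h).1) _ F.2⟩ : Ell Γ)
      map_add' := fun _ _ => rfl
      map_smul' := fun _ _ => rfl } 1 (by
      intro F
      rw [one_mul]
      have h1 : ‖(⟨fun g => F (g, i), memlp_comp_inj (fun g : Γ => (g, i))
        (fun a b h => (Prod.mk.inj h).1) _ F.2⟩ : Ell Γ)‖ ^ 2 = ∑' g, ‖F (g, i)‖ ^ 2 := by
        have := lp.norm_rpow_eq_tsum (p := 2) (by norm_num) (⟨fun g => F (g, i),
          memlp_comp_inj (fun g : Γ => (g, i))
          (fun a b h => (Prod.mk.inj h).1) _ F.2⟩ : lp (fun _ : Γ => ℂ) 2)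
        simp only [ENNReal.toReal_ofNat, Real.rpow_ofNat] at this
        exact this
      have h2 : ‖F‖ ^ 2 = ∑' x, ‖F x‖ ^ 2 := by
        have := lp.norm_rpow_eq_tsum (p := 2) (by norm_num) F
        simpa using this
      have hs : Summable fun x => ‖F x‖ ^ 2 := (memlp_two_iff _).1 F.2
      have h3 : ∑' g, ‖F (g, i)‖ ^ 2 ≤ ∑' x, ‖F x‖ ^ 2 :=
        tsum_comp_le_tsum_of_inj hs (fun _ => by positivity)
          (i := fun g : Γ => (g, i)) (fun a b h => (Prod.mk.inj h).1)
      refine abs_le_of_sq_le_sq ?_ (norm_nonneg _) |> (abs_le.1 · |>.2)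
      change ‖(⟨fun g => F (g, i), _⟩ : Ell Γ)‖ ^ 2 ≤ ‖F‖ ^ 2
      rw [h1, h2]
      exact h3)

theorem sl_val (i : I) (F : EE Γ I) (g : Γ) : (sl i F).val g = F (g, i) := rfl

/-- the adjoint of the slice -/
def pt (i : I) : Ell Γ →L[ℂ] EE Γ I := ContinuousLinearMap.adjoint (sl i)

theorem pt_val (i : I) (f : Ell Γ) (g : Γ) (j : I) [Decidable (j = i)] :
    (pt i f : EE Γ I) (g, j) = if j = i then f.val g else 0 := by
  classical
  rw [← inner_dl_left, pt, ContinuousLinearMap.adjoint_inner_right]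
  by_cases h : j = i
  · rw [if_pos h]
    have e : sl i (dl (g, j) : EE Γ I) = dirac g := by
      apply Ell.ext'; intro x
      rw [sl_val, dirac_val]
      by_cases hx : x = g
      · rw [if_pos hx, hx, h, dl_apply_self]
      · rw [if_neg hx, dl_apply_ne]
        intro h'; exact hx (Prod.mk.inj h').1
    rw [e, inner_dirac_left]
  · rw [if_neg h]
    have e : sl i (dl (g, j) : EE Γ I) = 0 := by
      apply Ell.ext'; intro x
      rw [sl_val, val_zero, dl_apply_ne]
      intro h'; exact h (Prod.mk.inj h').2.symm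
    rw [e, inner_zero_left]

theorem sl_pt (i j : I) (f : Ell Γ) [Decidable (j = i)] :
    sl j (pt i f) = if j = i then f else 0 := by
  apply Ell.ext'; intro g
  rw [sl_val, pt_val]
  split_ifs <;> rfl

theorem sl_tr (k : Γ) (i : I) (F : EE Γ I) : sl i (tr k F) = comp (Equiv.mulLeft k⁻¹) (sl i F) := rfl

theorem pt_tr (k : Γ) (i : I) (f : Ell Γ) :
    tr k (pt i f : EE Γ I) = pt i (comp (Equiv.mulLeft k⁻¹) f) := by
  classical
  ext ⟨g, j⟩
  rw [tr_apply, pt_val, pt_val]
  rfl

theorem sum_pt_sl [Fintype I] (F : EE Γ I) : ∑ i, pt i (sl i F) = F := by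
  classical
  ext ⟨g, j⟩
  have h : ∀ (s : Finset I) (G : I → EE Γ I), (∑ i ∈ s, G i : EE Γ I) (g, j) =
      ∑ i ∈ s, (G i : EE Γ I) (g, j) := by
    intro s G
    induction s using Finset.induction_on with
    | empty => simp
    | insert a s ha ih => rw [Finset.sum_insert ha, Finset.sum_insert ha, ← ih]; rfl
  rw [h]
  simp only [pt_val, Finset.sum_ite_eq, Finset.mem_univ, if_true, sl_val]

theorem pt_dirac (i : I) (g : Γ) : pt i (dirac g) = (dl (g, i) : EE Γ I) := by
  classical
  ext ⟨x, j⟩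
  rw [pt_val, dirac_val]
  by_cases h : j = i
  · by_cases hx : x = g
    · rw [if_pos h, if_pos hx, h, hx, dl_apply_self]
    · rw [if_pos h, if_neg hx, dl_apply_ne]
      intro h'; exact hx (Prod.mk.inj h').1
  · rw [if_neg h, dl_apply_ne]
    intro h'; exact h (Prod.mk.inj h').2

/-- the vector of `v ∈ L(Γ)^I` -/
def vec [Fintype I] (v : I → LG Γ) : EE Γ I := ∑ i, pt i (opL (v i) (dirac 1))

theorem sl_vec [Fintype I] (v : I → LG Γ) (i : I) : sl i (vec v) = opL (v i) (dirac 1) := by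
  classical
  unfold vec
  rw [map_sum]
  simp only [sl_pt, Finset.sum_ite_eq, Finset.mem_univ, if_true]

theorem vec_inj [Fintype I] {v w : I → LG Γ} (h : vec v = vec w) : v = w := by
  funext i
  apply opL_sep
  rw [← sl_vec, ← sl_vec, h]

theorem vec_add [Fintype I] (v w : I → LG Γ) : vec (v + w) = vec v + vec w := by
  unfold vec
  rw [← Finset.sum_add_distrib]
  refine Finset.sum_congr rfl fun i _ => ?_
  rw [← map_add]; rfl

theorem vec_zero [Fintype I] : vec (0 : I → LG Γ) = 0 := by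
  unfold vec
  refine Finset.sum_eq_zero fun i _ => ?_
  have : opL ((0 : I → LG Γ) i) (dirac 1) = 0 := rfl
  rw [this, map_zero]

theorem clm_ext_dl {F : Type*} [NormedAddCommGroup F] [InnerProductSpace ℂ F] [CompleteSpace F]
    (X Y : EE Γ I →L[ℂ] F) (h : ∀ x, X (dl x) = Y (dl x)) : X = Y := by
  ext f
  apply ext_inner_left ℂ
  intro v
  rw [← ContinuousLinearMap.adjoint_inner_left, ← ContinuousLinearMap.adjoint_inner_left]
  congr 1
  ext x
  rw [← inner_dl_left, ← inner_dl_left, ContinuousLinearMap.adjoint_inner_right,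
    ContinuousLinearMap.adjoint_inner_right, h]

theorem Eqv.ext_dl {X Y : EE Γ I →L[ℂ] EE Γ J} (hX : Eqv X) (hY : Eqv Y)
    (h : ∀ i, X (dl (1, i)) = Y (dl (1, i))) : X = Y := by
  apply clm_ext_dl
  rintro ⟨k, i⟩
  have e : (dl (k, i) : EE Γ I) = tr k (dl (1, i)) := by rw [tr_dl, mul_one]
  rw [e, hX, hY, h]

/-- right multiplication by a matrix -/
def Op [Fintype I] [Fintype J] (T : Matrix I J (LG Γ)) : EE Γ I →L[ℂ] EE Γ J :=
  ∑ i, ∑ j, (pt j).comp ((Rop (T i j)).comp (sl i))

theorem Op_vec [Fintype I] [Fintype J] (T : Matrix I J (LG Γ)) (v : I → LG Γ) :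
    Op T (vec v) = vec (Matrix.vecMul v T) := by
  have h1 : Op T (vec v) = ∑ i, ∑ j, pt j (opL (v i * T i j) (dirac 1)) := by
    unfold Op
    simp only [ContinuousLinearMap.sum_apply, ContinuousLinearMap.comp_apply, sl_vec, Rop_apply]
  rw [h1, Finset.sum_comm, vec]
  refine Finset.sum_congr rfl fun j _ => ?_
  rw [← map_sum]
  congr 1
  have : Matrix.vecMul v T j = ∑ i, v i * T i j := rfl
  rw [this, opL_sum, ContinuousLinearMap.sum_apply]

theorem Eqv.fsum {ι : Type} (s : Finset ι) (X : ι → (EE Γ I →L[ℂ] EE Γ J))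
    (hX : ∀ k ∈ s, Eqv (X k)) : Eqv (∑ k ∈ s, X k) := by
  classical
  induction s using Finset.induction_on with
  | empty =>
    intro k f
    simp only [Finset.sum_empty, ContinuousLinearMap.zero_apply]
    have := tr_smul k (0 : ℂ) (0 : EE Γ J)
    simpa using this.symm
  | insert a s ha ih =>
    rw [Finset.sum_insert ha]
    exact Eqv.add' (hX a (Finset.mem_insert_self a s))
      (ih fun i hi => hX i (Finset.mem_insert_of_mem hi))

theorem Op_eqv [Fintype I] [Fintype J] (T : Matrix I J (LG Γ)) : Eqv (Op T) := by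
  unfold Op
  refine Eqv.fsum _ _ fun i _ => Eqv.fsum _ _ fun j _ => ?_
  intro k f
  simp only [ContinuousLinearMap.comp_apply]
  rw [sl_tr, Rop_left, pt_tr]

/-- the matrix of an equivariant operator -/
def toM (B : EE Γ I →L[ℂ] EE Γ J) (hB : Eqv B) : Matrix I J (LG Γ) := fun i j =>
  toL ((sl j).comp (B.comp (pt i))) (by
    intro k f
    have h1 : pt i (comp (Equiv.mulLeft k) f) = tr k⁻¹ (pt i f : EE Γ I) := by
      rw [pt_tr, inv_inv]
    simp only [ContinuousLinearMap.comp_apply]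
    rw [h1, hB, sl_tr, inv_inv])

theorem vec_toM [Fintype J] (B : EE Γ I →L[ℂ] EE Γ J) (hB : Eqv B) (i : I) :
    vec (toM B hB i) = B (dl (1, i)) := by
  rw [← sum_pt_sl (B (dl (1, i)))]
  unfold vec
  refine Finset.sum_congr rfl fun j _ => ?_
  rw [toM, toL_dirac]
  simp only [ContinuousLinearMap.comp_apply]
  rw [pt_dirac]

theorem vec_single [Fintype I] [DecidableEq I] (i : I) (g : Γ) :
    vec (Pi.single i (lam g)) = (dl (g, i) : EE Γ I) := by
  unfold vec
  rw [Finset.sum_eq_single i]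
  · rw [Pi.single_eq_same, opL_lam, ← left_dirac, pt_dirac]
  · intro j _ hj
    rw [Pi.single_eq_of_ne hj, opL_zero, ContinuousLinearMap.zero_apply, map_zero]
  · simp

theorem lam_one : lam (1 : Γ) = 1 := by
  apply opL_inj
  ext f
  apply Ell.ext'
  intro x
  rw [opL_lam, comp_val]
  simp
  rfl

theorem vec_single_one [Fintype I] [DecidableEq I] (i : I) :
    vec (Pi.single i (1 : LG Γ)) = (dl (1, i) : EE Γ I) := by
  rw [← lam_one, vec_single]

theorem Op_toM [Fintype I] [Fintype J] (B : EE Γ I →L[ℂ] EE Γ J) (hB : Eqv B) :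
    Op (toM B hB) = B := by
  classical
  apply Eqv.ext_dl (Op_eqv _) hB
  intro i
  rw [← vec_toM B hB, ← vec_single_one, Op_vec]
  congr 1
  funext j
  simp [Matrix.vecMul, dotProduct, Pi.single_apply]

/-- left action of `L(Γ)` -/
def act [Fintype I] (x : LG Γ) : EE Γ I →L[ℂ] EE Γ I := ∑ i, (pt i).comp ((opL x).comp (sl i))

theorem act_vec [Fintype I] (x : LG Γ) (v : I → LG Γ) : act x (vec v) = vec (x • v) := by
  unfold act vec
  rw [ContinuousLinearMap.sum_apply]
  refine Finset.sum_congr rfl fun i _ => ?_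
  simp only [ContinuousLinearMap.comp_apply]
  have h := sl_vec v i
  unfold vec at h
  rw [h]
  rfl

theorem act_comm [Fintype I] [Fintype J] (x : LG Γ) (B : EE Γ I →L[ℂ] EE Γ J) (hB : Eqv B)
    (F : EE Γ I) : act x (B F) = B (act x F) := by
  classical
  have h : (act x).comp B = B.comp (act x) := by
    apply clm_ext_dl
    rintro ⟨k, i⟩
    simp only [ContinuousLinearMap.comp_apply]
    rw [← vec_single, act_vec, ← Op_toM B hB, Op_vec, Op_vec, act_vec, Matrix.smul_vecMul]
  exact congrArg (fun T => T F) h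

theorem act_add [Fintype I] (x y : LG Γ) (F : EE Γ I) : act (x + y) F = act x F + act y F := by
  unfold act
  simp only [ContinuousLinearMap.sum_apply, ContinuousLinearMap.comp_apply, opL_add,
    ContinuousLinearMap.add_apply, map_add, Finset.sum_add_distrib]

theorem act_zero [Fintype I] (F : EE Γ I) : act (0 : LG Γ) F = 0 := by
  unfold act
  simp only [ContinuousLinearMap.sum_apply, ContinuousLinearMap.comp_apply, opL_zero,
    ContinuousLinearMap.zero_apply, map_zero, Finset.sum_const_zero]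

theorem act_mul [Fintype I] (x y : LG Γ) (F : EE Γ I) : act (x * y) F = act x (act y F) := by
  classical
  unfold act
  simp only [ContinuousLinearMap.sum_apply, ContinuousLinearMap.comp_apply, opL_mul, map_sum,
    sl_pt]
  refine Finset.sum_congr rfl fun i _ => ?_
  rw [Finset.sum_eq_single i]
  · rw [if_pos rfl]
  · intro j _ hj
    rw [if_neg hj, map_zero, map_zero]
  · simp

theorem act_one [Fintype I] (F : EE Γ I) : act (1 : LG Γ) F = F := by
  unfold act
  simp only [ContinuousLinearMap.sum_apply, ContinuousLinearMap.comp_apply, opL_one]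
  exact sum_pt_sl F

theorem act_lam [Fintype I] (g : Γ) (F : EE Γ I) : act (lam g) F = tr g F := by
  unfold act
  simp only [ContinuousLinearMap.sum_apply, ContinuousLinearMap.comp_apply, opL_lam]
  rw [← sum_pt_sl (tr g F)]
  rfl

end

end Pool.Agent.V11111.MD
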