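import Mathlib
import Pool.Agent.H13.L.R843.V11111.MD.VR

/-! Upper bound for the von Neumann-Lück rank. -/

set_option autoImplicit false

open scoped InnerProductSpace InnerProduct ENNReal ComplexConjugate
open Filter Topology
open Pool.Agent.H919R3.L2

noncomputable section

namespace Pool.Agent.V11111.MD

section
variable {Γ : Type} [Group Γ] {I J : Type} [Fintype I] [Fintype J]

theorem inner_proj {E : Type*} [NormedAddCommGroup E] [InnerProductSpace ℂ E]
    (K : Submodule ℂ E) [K.HasOrthogonalProjection] (x F : E) (hF : F ∈ K) :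
    ⟪K.starProjection x, F⟫_ℂ = ⟪x, F⟫_ℂ := by
  have h := Submodule.starProjection_inner_eq_zero x F hF (K := K)
  rw [inner_sub_left, sub_eq_zero] at h
  exact h.symm

theorem proj_norm_le {E : Type*} [NormedAddCommGroup E] [InnerProductSpace ℂ E]
    (K L : Submodule ℂ E) [K.HasOrthogonalProjection] [L.HasOrthogonalProjection] (h : K ≤ L)
    (x : E) : ‖K.starProjection x‖ ≤ ‖L.starProjection x‖ := by
  have h1 : ⟪L.starProjection x, K.starProjection x⟫_ℂ =
      ((‖K.starProjection x‖ : ℂ)) ^ 2 := by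
    rw [inner_proj L x _ (h (Submodule.starProjection_apply_mem _ _)),
      ← inner_proj K x _ (Submodule.starProjection_apply_mem _ _)]
    exact inner_self_eq_norm_sq_to_K _
  have h2 := norm_inner_le_norm (𝕜 := ℂ) (L.starProjection x) (K.starProjection x)
  rw [h1, norm_pow, Complex.norm_real, norm_norm] at h2
  rcases eq_or_lt_of_le (norm_nonneg (K.starProjection x)) with h3 | h3
  · rw [← h3]; exact norm_nonneg _
  · rw [sq] at h2
    exact le_of_mul_le_mul_right h2 h3

theorem norm_sq_sl (F : EE Γ I) : ‖F‖ ^ 2 = ∑ i, ‖sl i F‖ ^ 2 := by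
  have h1 : ⟪F, F⟫_ℂ = ∑ i, ⟪sl i F, sl i F⟫_ℂ := by
    conv_lhs => rw [← sum_pt_sl F]
    rw [sum_pt_sl, ← sum_pt_sl F]
    rw [inner_sum]
    refine Finset.sum_congr rfl fun i _ => ?_
    rw [sum_pt_sl, pt, ContinuousLinearMap.adjoint_inner_right]
  rw [inner_self_eq_norm_sq_to_K] at h1
  have h2 : ∀ i, ⟪sl i F, sl i F⟫_ℂ = ((‖sl i F‖ ^ 2 : ℝ) : ℂ) := by
    intro i
    rw [inner_self_eq_norm_sq_to_K]; norm_cast
  simp only [h2] at h1
  rw [← Complex.ofReal_sum] at h1
  exact Complex.ofReal_injective (by rw [← h1]; norm_cast)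

theorem nu_trace (N : EE Γ I →L[ℂ] EE Γ J) :
    ((nu N : ℝ) : ℂ) = ∑ i : I, ⟪(dl (1, i) : EE Γ I), (kr N).starProjection (dl (1, i))⟫_ℂ := by
  unfold nu
  rw [Complex.ofReal_sum]
  refine Finset.sum_congr rfl fun i _ => ?_
  rw [← inner_proj (kr N) _ _ (Submodule.starProjection_apply_mem _ _),
    inner_self_eq_norm_sq_to_K]
  norm_cast

theorem kr_eqv (N : EE Γ I →L[ℂ] EE Γ J) (hN : Eqv N) : Eqv (kr N).starProjection := by
  apply Eqv_proj
  intro k F hF
  rw [mem_kr] at hF ⊢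
  rw [hN, hF]
  have := tr_smul k (0 : ℂ) (0 : EE Γ J)
  simpa using this

/-- the trace of an idempotent -/
theorem idem_trace (E : EE Γ I →L[ℂ] EE Γ I) (hE : Eqv E) (h2 : ∀ x, E (E x) = E x) :
    ∑ i : I, ⟪(dl (1, i) : EE Γ I), E (dl (1, i))⟫_ℂ = ((Fintype.card I - nu E : ℝ) : ℂ) := by
  set P := (kr E).starProjection with hP
  have hY : Eqv (1 - E : EE Γ I →L[ℂ] EE Γ I) := by
    intro k f
    simp only [_root_.sub_apply, one_apply_eq_self]
    rw [hE, tr_sub']
  have hS := HS P (1 - E) (kr_eqv E hE) hY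
  have e1 : ∀ i : I, ⟪P (dl ((1 : Γ), i)), (1 - E) (dl ((1 : Γ), i))⟫_ℂ =
      ⟪(dl (1, i) : EE Γ I), dl (1, i) - E (dl (1, i))⟫_ℂ := by
    intro i
    rw [hP, inner_proj (kr E)]
    · rfl
    · rw [mem_kr]
      simp only [_root_.sub_apply, one_apply_eq_self]
      rw [map_sub, h2, sub_self]
  have e2 : ∀ i : I, ⟪ContinuousLinearMap.adjoint (1 - E) (dl ((1 : Γ), i)),
      ContinuousLinearMap.adjoint P (dl ((1 : Γ), i))⟫_ℂ =
      ⟪(dl (1, i) : EE Γ I), P (dl (1, i))⟫_ℂ := by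
    intro i
    have hPs : ContinuousLinearMap.adjoint P = P := by
      apply ContinuousLinearMap.ext
      intro x
      apply ext_inner_right ℂ
      intro v
      rw [ContinuousLinearMap.adjoint_inner_left, hP]
      exact (Submodule.inner_starProjection_left_eq_right _ _ _).symm
    rw [hPs, ContinuousLinearMap.adjoint_inner_left]
    have h3 : E (P (dl ((1 : Γ), i))) = 0 :=
      (mem_kr E _).1 (Submodule.starProjection_apply_mem _ _)
    simp only [_root_.sub_apply, one_apply_eq_self]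
    rw [h3, sub_zero]
  rw [Finset.sum_congr rfl fun i _ => e1 i, Finset.sum_congr rfl fun i _ => e2 i, ← nu_trace] at hS
  simp only [inner_sub_right, Finset.sum_sub_distrib] at hS
  have e3 : ∑ i : I, ⟪(dl ((1 : Γ), i) : EE Γ I), dl (1, i)⟫_ℂ = (Fintype.card I : ℂ) := by
    have : ∀ i : I, ⟪(dl ((1 : Γ), i) : EE Γ I), dl (1, i)⟫_ℂ = 1 := by
      intro i
      rw [inner_self_eq_norm_sq_to_K, norm_dl]; simp
    rw [Finset.sum_congr rfl fun i _ => this i]; simp
  rw [e3] at hS
  push_cast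
  rw [← hS]; ring

end

end Pool.Agent.V11111.MD
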