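import Mathlib
import Pool.Agent.H13.L.R843.V11111.MD.VU

/-! Upper bound for the von Neumann-Lück rank. -/

set_option autoImplicit false

open scoped InnerProductSpace InnerProduct ENNReal ComplexConjugate
open Filter Topology
open Pool.Agent.H919R3.L2

noncomputable section

namespace Pool.Agent.V11111.MD

section
variable {Γ : Type} [Group Γ] {I J : Type} [Fintype I] [Fintype J]

theorem vecMul_sum' (v : I → LG Γ) (M : Matrix I J (LG Γ)) :
    Matrix.vecMul v M = ∑ i, v i • M i := by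
  funext j
  rw [Finset.sum_apply]
  rfl

theorem single_vecMul' [DecidableEq I] (i : I) (M : Matrix I J (LG Γ)) :
    Matrix.vecMul (Pi.single i 1) M = M i := by
  funext j
  simp [Matrix.vecMul, dotProduct, Pi.single_apply]

theorem vvm {L : Type} [Fintype L] (v : I → LG Γ) (M : Matrix I J (LG Γ)) (N : Matrix J L (LG Γ)) :
    Matrix.vecMul (Matrix.vecMul v M) N = Matrix.vecMul v (M * N) := Matrix.vecMul_vecMul v M N

theorem vfr {L : Type} [Fintype L] (b : I ⊕ J → LG Γ) (S : Matrix I L (LG Γ))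
    (H : Matrix J L (LG Γ)) : Matrix.vecMul b (Matrix.fromRows S H) =
      Matrix.vecMul (b ∘ Sum.inl) S + Matrix.vecMul (b ∘ Sum.inr) H :=
  Matrix.vecMul_fromRows S H b

variable {m : ℕ} {A : Type} [AddCommGroup A] [Module (MonoidAlgebra ℤ Γ) A]
  {κ : Type} [Fintype κ]

/-- the matrix of relations -/
def HM (row : κ → (Γ × Fin m →₀ ℤ)) : Matrix κ (Fin m) (LG Γ) := fun q => hat (row q)

theorem Op_HM (row : κ → (Γ × Fin m →₀ ℤ)) (k : Γ) (q : κ) :
    Op (HM row) (dl (k, q)) = embZ (shift k (row q)) := by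
  classical
  have e : (dl (k, q) : EE Γ κ) = tr k (dl (1, q)) := by rw [tr_dl, mul_one]
  rw [e, Op_eqv, ← vec_single_one, Op_vec, single_vecMul', ← tr_embZ, ← vec_hat]
  rfl

theorem br_zero : br Γ (0 : A) = 0 := (brH Γ).map_zero

theorem piA_HM (a : Fin m → A) (row : κ → (Γ × Fin m →₀ ℤ)) (hrow : ∀ q, phi a (row q) = 0)
    (w : κ → LG Γ) : piA a (Matrix.vecMul w (HM row)) = 0 := by
  rw [vecMul_sum', map_sum]
  refine Finset.sum_eq_zero fun q _ => ?_
  rw [map_smul]
  have : piA a (HM row q) = br Γ (phi a (row q)) := piA_hat a (row q)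
  rw [this, hrow, br_zero, smul_zero]

theorem mtr_eq {n : ℕ} (e : Matrix (Fin n) (Fin n) (LG Γ)) (he : e * e = e) :
    mtr e = n - nu (Op e) := by
  have h1 : ∀ x, Op e (Op e x) = Op e x := by
    have : (Op e).comp (Op e) = Op e := by
      apply Eqv.ext_dl (Eqv.comp' (Op_eqv e) (Op_eqv e)) (Op_eqv e)
      intro i
      rw [ContinuousLinearMap.comp_apply, ← vec_single_one, Op_vec, Op_vec, vvm,
        he]
    intro x
    exact congrArg (fun T => T x) this
  have h2 := idem_trace (Op e) (Op_eqv e) h1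
  have h3 : ∀ i : Fin n, ⟪(dl (1, i) : EE Γ (Fin n)), Op e (dl (1, i))⟫_ℂ = vtr (e i i) := by
    intro i
    rw [← vec_single_one, Op_vec, single_vecMul', vec_single_one, inner_dl_left, ← sl_val, sl_vec,
      vtr_eq]
  rw [Finset.sum_congr rfl fun i _ => h3 i] at h2
  rw [mtr, h2, Complex.ofReal_re, Fintype.card_fin]

theorem mtr_le (a : Fin m → A) (ha : Function.Surjective (phi (Γ := Γ) a))
    (row : κ → (Γ × Fin m →₀ ℤ)) (hrow : ∀ q, phi a (row q) = 0) {n : ℕ}
    (e : Matrix (Fin n) (Fin n) (LG Γ)) (he : e * e = e)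
    (f : (Fin n → LG Γ) →ₗ[LG Γ] Ind Γ A) (hf : ∀ v, f v = 0 ↔ Matrix.vecMul v e = 0) :
    mtr e ≤ nu (ContinuousLinearMap.adjoint (Op (HM row))) := by
  classical
  choose T0 hT0 using fun i => piA_surj a ha (f (Pi.single i 1))
  set T : Matrix (Fin n) (Fin m) (LG Γ) := T0 with hT
  have hfT : ∀ v, f v = piA a (Matrix.vecMul v T) := by
    intro v
    have e1 : v = ∑ i, v i • (Pi.single i (1 : LG Γ) : Fin n → LG Γ) := by
      funext j
      rw [Finset.sum_apply]
      simp [Pi.single_apply]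
    conv_lhs => rw [e1]
    rw [map_sum, vecMul_sum', map_sum]
    refine Finset.sum_congr rfl fun i _ => ?_
    rw [map_smul, map_smul, ← hT0 i]
  set S : Matrix (Fin n) (Fin m) (LG Γ) := e * T with hS
  have hfS : ∀ v, f v = piA a (Matrix.vecMul v S) := by
    intro v
    have e1 : f (v - Matrix.vecMul v e) = 0 := by
      rw [hf, Matrix.sub_vecMul, vvm, he, sub_self]
    rw [map_sub, sub_eq_zero] at e1
    rw [e1, hfT, vvm]
  set M : Matrix (Fin n ⊕ κ) (Fin m) (LG Γ) := Matrix.fromRows S (HM row) with hM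
  -- the kernel of `M`
  have hker : ∀ b : Fin n ⊕ κ → LG Γ, Matrix.vecMul b M = 0 →
      Matrix.vecMul (b ∘ Sum.inl) e = 0 ∧ Matrix.vecMul (b ∘ Sum.inr) (HM row) = 0 := by
    intro b hb
    rw [hM, vfr] at hb
    have h1 : piA a (Matrix.vecMul (b ∘ Sum.inl) S) = 0 := by
      have h2 := congrArg (piA a) hb
      rw [map_add, piA_HM a row hrow, add_zero, map_zero] at h2
      exact h2
    rw [← hfS, hf] at h1
    refine ⟨h1, ?_⟩
    rw [hS, ← vvm, h1, Matrix.zero_vecMul, zero_add] at hb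
    exact hb
  -- the comparison
  have hcomp : ∀ s : Fin n ⊕ κ, ∃ b : Fin n ⊕ κ → LG Γ,
      vec b = (kr (Op M)).starProjection (dl (1, s)) ∧ Matrix.vecMul b M = 0 := by
    intro s
    refine ⟨toM _ (kr_eqv (Op M) (Op_eqv M)) s, vec_toM _ _ s, ?_⟩
    apply vec_inj
    rw [← Op_vec, vec_toM, vec_zero]
    exact (mem_kr _ _).1 (Submodule.starProjection_apply_mem _ _)
  have hfin : ∀ {L : Type} [Fintype L] (ι : L → Fin n ⊕ κ) (hι : Function.Injective ι)
      (D : Matrix L (Fin n) (LG Γ)) (l : L), True := fun _ _ _ _ => trivial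
  have hgen : ∀ {L L' : Type} [Fintype L] [Fintype L'] (ι : L → Fin n ⊕ κ)
      (_ : Function.Injective ι) (D : Matrix L L' (LG Γ))
      (_ : ∀ b : Fin n ⊕ κ → LG Γ, Matrix.vecMul b M = 0 → Matrix.vecMul (b ∘ ι) D = 0) (l : L),
      ‖(kr (Op M)).starProjection (dl ((1 : Γ), ι l))‖ ^ 2 ≤
        ‖(kr (Op D)).starProjection (dl ((1 : Γ), l))‖ ^ 2 := by
    intro L L' _ _ ι hι D hD l
    obtain ⟨b, hb1, hb2⟩ := hcomp (ι l)
    set F := (kr (Op M)).starProjection (dl ((1 : Γ), ι l)) with hF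
    have hb3 := hD b hb2
    have hmem : vec (b ∘ ι) ∈ kr (Op D) := by
      rw [mem_kr, Op_vec, hb3, vec_zero]
    have h1 : ⟪(dl ((1 : Γ), l) : EE Γ L), vec (b ∘ ι)⟫_ℂ = ((‖F‖ ^ 2 : ℝ) : ℂ) := by
      rw [inner_dl_left, ← sl_val, sl_vec]
      have h2 : ⟪(dl ((1 : Γ), ι l) : EE Γ (Fin n ⊕ κ)), vec b⟫_ℂ = ((‖F‖ ^ 2 : ℝ) : ℂ) := by
        rw [hb1, ← inner_proj (kr (Op M)) _ _ (Submodule.starProjection_apply_mem _ _),
          inner_self_eq_norm_sq_to_K]
        norm_cast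
      rw [← h2, inner_dl_left, ← sl_val, sl_vec]
      rfl
    have h3 : ‖vec (b ∘ ι)‖ ≤ ‖F‖ := by
      have h4 : ‖vec (b ∘ ι)‖ ^ 2 ≤ ‖F‖ ^ 2 := by
        rw [← hb1, norm_sq_sl, norm_sq_sl]
        simp only [sl_vec]
        have : ∑ i : L, ‖opL ((b ∘ ι) i) (dirac 1)‖ ^ 2 =
            ∑ s ∈ Finset.univ.image ι, ‖opL (b s) (dirac 1)‖ ^ 2 := by
          rw [Finset.sum_image (fun x _ y _ h => hι h)]
          rfl
        rw [this]
        exact Finset.sum_le_sum_of_subset_of_nonneg (Finset.subset_univ _)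
          fun _ _ _ => sq_nonneg _
      exact abs_le_of_sq_le_sq h4 (norm_nonneg _) |> (abs_le.1 · |>.2)
    rw [← inner_proj (kr (Op D)) _ _ hmem] at h1
    have h5 := norm_inner_le_norm (𝕜 := ℂ) ((kr (Op D)).starProjection (dl ((1 : Γ), l)))
      (vec (b ∘ ι))
    rw [h1, Complex.norm_real, Real.norm_eq_abs, abs_of_nonneg (sq_nonneg _)] at h5
    have h6 : ‖F‖ ≤ ‖(kr (Op D)).starProjection (dl ((1 : Γ), l))‖ := by
      rcases eq_or_lt_of_le (norm_nonneg F) with h7 | h7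
      · rw [← h7]; exact norm_nonneg _
      · have h8 : ‖F‖ * ‖F‖ ≤ ‖(kr (Op D)).starProjection (dl ((1 : Γ), l))‖ * ‖F‖ := by
          rw [← sq]
          exact h5.trans (mul_le_mul_of_nonneg_left h3 (norm_nonneg _))
        exact le_of_mul_le_mul_right h8 h7
    gcongr
  have hnu : nu (Op M) ≤ nu (Op e) + nu (Op (HM row)) := by
    unfold nu
    rw [Fintype.sum_sum_type]
    refine add_le_add (Finset.sum_le_sum fun i _ => ?_) (Finset.sum_le_sum fun q _ => ?_)
    · exact hgen Sum.inl Sum.inl_injective e (fun b hb => (hker b hb).1) i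
    · exact hgen Sum.inr Sum.inr_injective (HM row) (fun b hb => (hker b hb).2) q
  have h1 := nu_adj (Op M) (Op_eqv M)
  have h2 := nu_adj (Op (HM row)) (Op_eqv _)
  have h3 := nu_nonneg (ContinuousLinearMap.adjoint (Op M))
  rw [Fintype.card_sum, Fintype.card_fin, Fintype.card_fin] at h1
  rw [Fintype.card_fin] at h2
  push_cast at h1
  rw [mtr_eq e he]
  linarith

end

end Pool.Agent.V11111.MD
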